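import Pool.Agent.H88.OCS.Stmts

/-!
# OCS, row GRS: the forms and the cells of stage A
-/

set_option autoImplicit false

namespace Pool.OCS.G41

open Finset Real
open Pool.Agent.H49.Ent Pool.Agent.H32.Dense Pool.STK Pool.KAF

variable (d : Dat)

/-- The form of a pair of times in the coordinates of the first time. -/
theorem ZR_eq (t₀ t : d.Tau) (l : d.Lam) :
    d.ZR t₀ t l = (d.th t - d.th t₀) * d.ct t₀ l - ∑ r, (d.S t r - d.S t₀ r) * d.pt t₀ l r -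
      (d.th t - d.th t₀) * ∑ r, (d.S t r - d.S t₀ r) * d.omR l r := by
  unfold Dat.ZR Dat.ZV Dat.V Dat.ct Dat.pt Dat.beR Dat.yR Dat.omR
  simp only [Fin.sum_univ_two]
  ring

/-- The form of a partner relative to the form of the reference. -/
theorem ZR_rel (w : d.Om × d.Om) (ω : d.Om) (l : d.Lam) (h1 : d.ta w ≠ 0)
    (h2 : d.ta (w.1, ω) ≠ 0) :
    d.ZR (d.T w.1) (d.T ω) l = d.ta (w.1, ω) * (d.ZR (d.T w.1) (d.T w.2) l / d.ta w -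
      ∑ r, (d.ch (w.1, ω) r - d.ch w r) * d.pt (d.T w.1) l r -
      ∑ r, (d.sg (w.1, ω) r - d.sg w r) * d.omR l r) := by
  rw [ZR_eq, ZR_eq]
  unfold Dat.ch Dat.sg
  unfold Dat.ta at h1 h2 ⊢
  simp only [Fin.sum_univ_two]
  field_simp
  ring

theorem fl_near {x y : ℝ} (s : ℤ) (h : ⌊(2 : ℝ) ^ s * x⌋ = ⌊(2 : ℝ) ^ s * y⌋) :
    |x - y| ≤ (2 : ℝ) ^ (-s) := by
  have h1 := (Int.abs_sub_lt_one_of_floor_eq_floor h).le
  rw [← mul_sub, abs_mul, abs_of_pos (by positivity : (0 : ℝ) < 2 ^ s)] at h1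
  rw [zpow_neg]
  rw [← one_div, le_div_iff₀ (by positivity), mul_comm]
  exact h1


/-- Two pairs in one cell. -/
theorem cell {mu : d.Om × d.Om → ℤ} {lam s : ℕ} {v w : d.Om × d.Om}
    (h : d.GS mu lam s v = d.GS mu lam s w) :
    d.T v.1 = d.T w.1 ∧ d.T v.2 = d.T w.2 ∧ mu v = mu w ∧
      (∀ r, |d.pt (d.T w.1) (d.L v.1) r - d.pt (d.T w.1) (d.L w.1) r| ≤ (2 : ℝ) ^ (-(s : ℤ))) ∧
      (∀ r, |d.omR (d.L v.1) r - d.omR (d.L w.1) r| ≤ (2 : ℝ) ^ ((lam : ℤ) - s)) ∧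
      |d.ZR (d.T w.1) (d.T w.2) (d.L v.1) / d.ta w -
        d.ZR (d.T w.1) (d.T w.2) (d.L w.1) / d.ta w| ≤ (2 : ℝ) ^ (-((s : ℤ) + mu w)) := by
  unfold Dat.GS at h
  simp only [Prod.mk.injEq] at h
  obtain ⟨h1, h2, h3, h4, h5, h6⟩ := h
  refine ⟨h1, h2, h3, fun r => ?_, fun r => ?_, ?_⟩
  · refine fl_near (s : ℤ) ?_
    have h7 := congrFun h4 r
    unfold Dat.ptd at h7
    rw [h1] at h7
    rw [zpow_natCast]
    exact h7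
  · refine (fl_near ((s - lam : ℕ) : ℤ) ?_).trans
      (zpow_le_zpow_right₀ (by norm_num) (by omega))
    have h7 := congrFun h5 r
    unfold Dat.omd at h7
    rw [zpow_natCast]
    exact h7
  · refine fl_near ((s : ℤ) + mu w) ?_
    rw [h3] at h6
    unfold Dat.us at h6
    have h7 : d.ta v = d.ta w := by
      unfold Dat.ta
      rw [h1, h2]
    rw [h1, h2, h7] at h6
    exact h6

/-- A linear form at a small vector. -/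
theorem lin_le (ξ x : Fin 2 → ℝ) {δ : ℝ} (hx : ∀ r, |x r| ≤ δ) :
    |∑ r, ξ r * x r| ≤ 2 * ‖ξ‖ * δ := by
  have h1 : ∀ r, |ξ r * x r| ≤ ‖ξ‖ * δ := by
    intro r
    rw [abs_mul]
    refine mul_le_mul ?_ (hx r) (abs_nonneg _) (norm_nonneg _)
    rw [← Real.norm_eq_abs]
    exact norm_le_pi_norm ξ r
  rw [Fin.sum_univ_two]
  have h2 := abs_add_le (ξ 0 * x 0) (ξ 1 * x 1)
  have h3 := h1 0
  have h4 := h1 1
  linarith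

/-- The conditions for a partner; `κ` bounds the terms of the velocity. -/
structure Par (m : ℤ) (mu : d.Om × d.Om → ℤ) (lam i k' : ℕ) (B κ : ℝ) (w : d.Om × d.Om)
    (ω : d.Om) : Prop where
  t1 : (2 : ℝ) ^ (-((i : ℤ) + k')) ≤ |d.ta (w.1, ω)|
  t2 : |d.ta (w.1, ω)| ≤ (2 : ℝ) ^ (-(i : ℤ))
  ch : ‖d.ch (w.1, ω) - d.ch w‖ ≤ B * (2 : ℝ) ^ (-mu w)
  om : (2 : ℝ) ^ (lam : ℤ) * ‖d.sg (w.1, ω) - d.sg w‖ ≤ κ * (2 : ℝ) ^ (-mu w)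

theorem Par.ne {m : ℤ} {mu : d.Om × d.Om → ℤ} {lam i k' : ℕ} {B κ : ℝ} {w : d.Om × d.Om}
    {ω : d.Om} (h : Par d m mu lam i k' B κ w ω) : d.ta (w.1, ω) ≠ 0 := by
  have h1 : (0 : ℝ) < |d.ta (w.1, ω)| := lt_of_lt_of_le (by positivity) h.t1
  exact abs_pos.1 h1

theorem ch_norm {w : d.Om × d.Om} {M : ℝ} (h1 : d.ta w ≠ 0) (h2 : ‖d.sg w‖ ≤ M * |d.ta w|) :
    ‖d.ch w‖ ≤ M := by
  have h0 : 0 < |d.ta w| := abs_pos.2 h1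
  have h3 : d.sg w = d.ta w • d.ch w := by
    funext r
    unfold Dat.ch
    simp only [Pi.smul_apply, smul_eq_mul]
    field_simp
  rw [h3, norm_smul, Real.norm_eq_abs, mul_comm] at h2
  exact le_of_mul_le_mul_right h2 h0

/-- The partners which are not too far from the reference. -/
theorem par_of {m : ℤ} {mu : d.Om × d.Om → ℤ} {lam i i₀ j k' k₆ : ℕ} {B : ℝ} {w : d.Om × d.Om}
    {ω : d.Om} (h1 : d.ta w ≠ 0) (h2 : ‖d.sg w‖ ≤ (2 : ℝ) ^ (-m) * |d.ta w|)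
    (h3 : |d.ta w| ≤ (2 : ℝ) ^ (-(j : ℤ))) (hj : i₀ ≤ j) (hi : i₀ ≤ i)
    (hmu : mu w + k₆ + lam ≤ m + i₀) (t1 : (2 : ℝ) ^ (-((i : ℤ) + k')) ≤ |d.ta (w.1, ω)|)
    (t2 : |d.ta (w.1, ω)| ≤ (2 : ℝ) ^ (-(i : ℤ)))
    (hch : ‖d.ch (w.1, ω) - d.ch w‖ ≤ B * (2 : ℝ) ^ (-mu w)) :
    Par d m mu lam i k' B (B * (2 : ℝ) ^ ((lam : ℤ) - i₀) + 2 * (2 : ℝ) ^ (-(k₆ : ℤ))) w ω := by
  refine ⟨t1, t2, hch, ?_⟩
  have hta : d.ta (w.1, ω) ≠ 0 := by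
    have h1 : (0 : ℝ) < |d.ta (w.1, ω)| := lt_of_lt_of_le (by positivity) t1
    exact abs_pos.1 h1
  have e1 := ch_norm d h1 h2
  have e2 : d.sg (w.1, ω) = d.ta (w.1, ω) • d.ch (w.1, ω) := by
    funext r
    unfold Dat.ch
    simp only [Pi.smul_apply, smul_eq_mul]
    field_simp
  have e3 : ‖d.ch (w.1, ω)‖ ≤ B * (2 : ℝ) ^ (-mu w) + (2 : ℝ) ^ (-m) := by
    have := norm_sub_norm_le (d.ch (w.1, ω)) (d.ch w)
    linarith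
  have e4 : ‖d.sg (w.1, ω)‖ ≤ (2 : ℝ) ^ (-(i₀ : ℤ)) * (B * (2 : ℝ) ^ (-mu w) + (2 : ℝ) ^ (-m)) := by
    rw [e2, norm_smul, Real.norm_eq_abs]
    refine mul_le_mul (t2.trans ?_) e3 (norm_nonneg _) (by positivity)
    exact zpow_le_zpow_right₀ (by norm_num) (by omega)
  have e5 : ‖d.sg w‖ ≤ (2 : ℝ) ^ (-m) * (2 : ℝ) ^ (-(i₀ : ℤ)) := by
    refine h2.trans (mul_le_mul_of_nonneg_left (h3.trans ?_) (by positivity))
    exact zpow_le_zpow_right₀ (by norm_num) (by omega)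
  have e6 : (2 : ℝ) ^ (lam : ℤ) * ((2 : ℝ) ^ (-m) * (2 : ℝ) ^ (-(i₀ : ℤ))) ≤
      (2 : ℝ) ^ (-(k₆ : ℤ)) * (2 : ℝ) ^ (-mu w) := by
    rw [← zpow_add₀ (by norm_num), ← zpow_add₀ (by norm_num), ← zpow_add₀ (by norm_num)]
    exact zpow_le_zpow_right₀ (by norm_num) (by omega)
  have e7 := norm_sub_le (d.sg (w.1, ω)) (d.sg w)
  have e8 : (2 : ℝ) ^ ((lam : ℤ) - i₀) = (2 : ℝ) ^ (lam : ℤ) * (2 : ℝ) ^ (-(i₀ : ℤ)) := by
    rw [← zpow_add₀ (by norm_num)]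
    congr 1
  rw [e8]
  have e9 : ‖d.sg (w.1, ω) - d.sg w‖ ≤ (2 : ℝ) ^ (-(i₀ : ℤ)) * (B * (2 : ℝ) ^ (-mu w)) +
      2 * ((2 : ℝ) ^ (-m) * (2 : ℝ) ^ (-(i₀ : ℤ))) := by
    nlinarith
  have e10 := mul_le_mul_of_nonneg_left e9 (by positivity : (0 : ℝ) ≤ (2 : ℝ) ^ (lam : ℤ))
  nlinarith

/-- The difference of the form of a partner, for two pairs in one cell. -/
theorem Z_diff {v w : d.Om × d.Om} {ω : d.Om}
    (h1 : d.ta w ≠ 0) (h2 : d.ta (w.1, ω) ≠ 0) :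
    d.ZR (d.T w.1) (d.T ω) (d.L v.1) - d.ZR (d.T w.1) (d.T ω) (d.L w.1) =
      d.ta (w.1, ω) * ((d.ZR (d.T w.1) (d.T w.2) (d.L v.1) / d.ta w -
        d.ZR (d.T w.1) (d.T w.2) (d.L w.1) / d.ta w) -
      ∑ r, (d.ch (w.1, ω) - d.ch w) r *
        (d.pt (d.T w.1) (d.L v.1) r - d.pt (d.T w.1) (d.L w.1) r) -
      ∑ r, (d.sg (w.1, ω) - d.sg w) r * (d.omR (d.L v.1) r - d.omR (d.L w.1) r)) := by
  rw [ZR_rel d w ω (d.L v.1) h1 h2, ZR_rel d w ω (d.L w.1) h1 h2]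
  simp only [Fin.sum_univ_two, Pi.sub_apply]
  ring

/-- The range of the form in the cell. -/
theorem Z_range {m : ℤ} {mu : d.Om × d.Om → ℤ} {lam i k' s : ℕ} {B κ : ℝ} {v w : d.Om × d.Om}
    {ω : d.Om} (h1 : d.ta w ≠ 0) (h : Par d m mu lam i k' B κ w ω)
    (hc : d.GS mu lam s v = d.GS mu lam s w) :
    |d.ZR (d.T w.1) (d.T ω) (d.L w.1) - d.ZR (d.T w.1) (d.T ω) (d.L v.1)| ≤
      (1 + 2 * B + 2 * κ) * (2 : ℝ) ^ (-((s : ℤ) + mu w + i)) := by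
  obtain ⟨-, -, -, c1, c2, c3⟩ := cell d hc
  rw [abs_sub_comm, Z_diff d h1 (h.ne d), abs_mul]
  have e1 := lin_le (d.ch (w.1, ω) - d.ch w)
    (fun r => d.pt (d.T w.1) (d.L v.1) r - d.pt (d.T w.1) (d.L w.1) r) c1
  have e2 := lin_le (d.sg (w.1, ω) - d.sg w)
    (fun r => d.omR (d.L v.1) r - d.omR (d.L w.1) r) c2
  have p1 : (0 : ℝ) < 2 ^ (-(s : ℤ)) := by positivity
  have e3 : 2 * ‖d.ch (w.1, ω) - d.ch w‖ * (2 : ℝ) ^ (-(s : ℤ)) ≤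
      2 * B * (2 : ℝ) ^ (-((s : ℤ) + mu w)) := by
    have : (2 : ℝ) ^ (-((s : ℤ) + mu w)) = (2 : ℝ) ^ (-mu w) * (2 : ℝ) ^ (-(s : ℤ)) := by
      rw [← zpow_add₀ (by norm_num)]
      congr 1
      ring
    rw [this]
    have := mul_le_mul_of_nonneg_right h.ch p1.le
    nlinarith
  have e4 : 2 * ‖d.sg (w.1, ω) - d.sg w‖ * (2 : ℝ) ^ ((lam : ℤ) - s) ≤
      2 * κ * (2 : ℝ) ^ (-((s : ℤ) + mu w)) := by
    have : (2 : ℝ) ^ (-((s : ℤ) + mu w)) = (2 : ℝ) ^ (-mu w) * (2 : ℝ) ^ (-(s : ℤ)) := by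
      rw [← zpow_add₀ (by norm_num)]
      congr 1
      ring
    have t : (2 : ℝ) ^ ((lam : ℤ) - s) = (2 : ℝ) ^ (lam : ℤ) * (2 : ℝ) ^ (-(s : ℤ)) := by
      rw [← zpow_add₀ (by norm_num)]
      congr 1
    rw [this, t]
    have := mul_le_mul_of_nonneg_right h.om p1.le
    nlinarith
  have e5 : (2 : ℝ) ^ (-((s : ℤ) + mu w + i)) =
      (2 : ℝ) ^ (-(i : ℤ)) * (2 : ℝ) ^ (-((s : ℤ) + mu w)) := by
    rw [← zpow_add₀ (by norm_num)]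
    congr 1
    ring
  rw [e5, mul_left_comm]
  refine mul_le_mul h.t2 ?_ (abs_nonneg _) (by positivity)
  refine (abs_sub _ _).trans ?_
  have e6 := abs_sub (d.ZR (d.T w.1) (d.T w.2) (d.L v.1) / d.ta w -
        d.ZR (d.T w.1) (d.T w.2) (d.L w.1) / d.ta w) (∑ r, (d.ch (w.1, ω) - d.ch w) r *
        (d.pt (d.T w.1) (d.L v.1) r - d.pt (d.T w.1) (d.L w.1) r))
  linarith

/-- If the form of a partner is atomic then the reference form is nearly linear. -/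
theorem Z_atomic {m : ℤ} {mu : d.Om × d.Om → ℤ} {lam i k' s k₁ : ℕ} {B κ : ℝ}
    {v w : d.Om × d.Om} {ω : d.Om} (h1 : d.ta w ≠ 0) (h : Par d m mu lam i k' B κ w ω)
    (hc : d.GS mu lam s v = d.GS mu lam s w)
    (ha : |d.ZR (d.T w.1) (d.T ω) (d.L w.1) - d.ZR (d.T w.1) (d.T ω) (d.L v.1)| ≤
      (2 : ℝ) ^ (-((s : ℤ) + (mu w + i) + k₁))) :
    |(d.ZR (d.T w.1) (d.T w.2) (d.L v.1) / d.ta w -
        d.ZR (d.T w.1) (d.T w.2) (d.L w.1) / d.ta w) -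
      ∑ r, (d.ch (w.1, ω) - d.ch w) r *
        (d.pt (d.T w.1) (d.L v.1) r - d.pt (d.T w.1) (d.L w.1) r)| ≤
      ((2 : ℝ) ^ ((k' : ℤ) - k₁) + 2 * κ) * (2 : ℝ) ^ (-((s : ℤ) + mu w)) := by
  obtain ⟨-, -, -, c1, c2, c3⟩ := cell d hc
  rw [abs_sub_comm, Z_diff d h1 (h.ne d), abs_mul] at ha
  have e2 := lin_le (d.sg (w.1, ω) - d.sg w)
    (fun r => d.omR (d.L v.1) r - d.omR (d.L w.1) r) c2
  have p1 : (0 : ℝ) < 2 ^ (-(s : ℤ)) := by positivity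
  have e4 : 2 * ‖d.sg (w.1, ω) - d.sg w‖ * (2 : ℝ) ^ ((lam : ℤ) - s) ≤
      2 * κ * (2 : ℝ) ^ (-((s : ℤ) + mu w)) := by
    have : (2 : ℝ) ^ (-((s : ℤ) + mu w)) = (2 : ℝ) ^ (-mu w) * (2 : ℝ) ^ (-(s : ℤ)) := by
      rw [← zpow_add₀ (by norm_num)]
      congr 1
      ring
    have t : (2 : ℝ) ^ ((lam : ℤ) - s) = (2 : ℝ) ^ (lam : ℤ) * (2 : ℝ) ^ (-(s : ℤ)) := by
      rw [← zpow_add₀ (by norm_num)]
      congr 1
    rw [this, t]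
    have := mul_le_mul_of_nonneg_right h.om p1.le
    nlinarith
  set a : ℝ := d.ZR (d.T w.1) (d.T w.2) (d.L v.1) / d.ta w -
        d.ZR (d.T w.1) (d.T w.2) (d.L w.1) / d.ta w with ha'
  set b : ℝ := ∑ r, (d.ch (w.1, ω) - d.ch w) r *
        (d.pt (d.T w.1) (d.L v.1) r - d.pt (d.T w.1) (d.L w.1) r) with hb
  set c : ℝ := ∑ r, (d.sg (w.1, ω) - d.sg w) r * (d.omR (d.L v.1) r - d.omR (d.L w.1) r) with hc'
  have e5 : |a - b - c| ≤ (2 : ℝ) ^ ((k' : ℤ) - k₁) * (2 : ℝ) ^ (-((s : ℤ) + mu w)) := by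
    have f1 : (2 : ℝ) ^ (-((i : ℤ) + k')) * |a - b - c| ≤
        (2 : ℝ) ^ (-((s : ℤ) + (mu w + i) + k₁)) :=
      (mul_le_mul_of_nonneg_right h.t1 (abs_nonneg _)).trans ha
    have f2 : (2 : ℝ) ^ (-((s : ℤ) + (mu w + i) + k₁)) = (2 : ℝ) ^ (-((i : ℤ) + k')) *
        ((2 : ℝ) ^ ((k' : ℤ) - k₁) * (2 : ℝ) ^ (-((s : ℤ) + mu w))) := by
      rw [← zpow_add₀ (by norm_num), ← zpow_add₀ (by norm_num)]
      congr 1
      ring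
    rw [f2] at f1
    exact le_of_mul_le_mul_left f1 (by positivity)
  have e6 : a - b = (a - b - c) + c := by ring
  have e7 := abs_add_le (a - b - c) c
  rw [← e6] at e7
  linarith

/-- The reference itself: range. -/
theorem Z_range0 {mu : d.Om × d.Om → ℤ} {lam j s : ℕ} {v w : d.Om × d.Om} (h1 : d.ta w ≠ 0)
    (h2 : |d.ta w| ≤ (2 : ℝ) ^ (-(j : ℤ))) (hc : d.GS mu lam s v = d.GS mu lam s w) :
    |d.ZR (d.T w.1) (d.T w.2) (d.L w.1) - d.ZR (d.T w.1) (d.T w.2) (d.L v.1)| ≤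
      (2 : ℝ) ^ (-((s : ℤ) + mu w + j)) := by
  obtain ⟨-, -, -, -, -, c3⟩ := cell d hc
  have e1 : d.ZR (d.T w.1) (d.T w.2) (d.L w.1) - d.ZR (d.T w.1) (d.T w.2) (d.L v.1) =
      d.ta w * -(d.ZR (d.T w.1) (d.T w.2) (d.L v.1) / d.ta w -
        d.ZR (d.T w.1) (d.T w.2) (d.L w.1) / d.ta w) := by
    field_simp
    ring
  rw [e1, abs_mul, abs_neg]
  have e5 : (2 : ℝ) ^ (-((s : ℤ) + mu w + j)) =
      (2 : ℝ) ^ (-(j : ℤ)) * (2 : ℝ) ^ (-((s : ℤ) + mu w)) := by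
    rw [← zpow_add₀ (by norm_num)]
    congr 1
    ring
  rw [e5]
  exact mul_le_mul h2 c3 (abs_nonneg _) (by positivity)

/-- The reference itself: atomic. -/
theorem Z_atomic0 {mu : d.Om × d.Om → ℤ} {j k' s k₁ : ℕ} {v w : d.Om × d.Om} (h1 : d.ta w ≠ 0)
    (h2 : (2 : ℝ) ^ (-((j : ℤ) + k')) ≤ |d.ta w|)
    (ha : |d.ZR (d.T w.1) (d.T w.2) (d.L w.1) - d.ZR (d.T w.1) (d.T w.2) (d.L v.1)| ≤
      (2 : ℝ) ^ (-((s : ℤ) + (mu w + j) + k₁))) :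
    |d.ZR (d.T w.1) (d.T w.2) (d.L v.1) / d.ta w -
        d.ZR (d.T w.1) (d.T w.2) (d.L w.1) / d.ta w| ≤
      (2 : ℝ) ^ ((k' : ℤ) - k₁) * (2 : ℝ) ^ (-((s : ℤ) + mu w)) := by
  have e1 : d.ZR (d.T w.1) (d.T w.2) (d.L w.1) - d.ZR (d.T w.1) (d.T w.2) (d.L v.1) =
      d.ta w * -(d.ZR (d.T w.1) (d.T w.2) (d.L v.1) / d.ta w -
        d.ZR (d.T w.1) (d.T w.2) (d.L w.1) / d.ta w) := by
    field_simp
    ring
  rw [e1, abs_mul, abs_neg] at ha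
  have f1 := (mul_le_mul_of_nonneg_right h2 (abs_nonneg _)).trans ha
  have f2 : (2 : ℝ) ^ (-((s : ℤ) + (mu w + j) + k₁)) = (2 : ℝ) ^ (-((j : ℤ) + k')) *
      ((2 : ℝ) ^ ((k' : ℤ) - k₁) * (2 : ℝ) ^ (-((s : ℤ) + mu w))) := by
    rw [← zpow_add₀ (by norm_num), ← zpow_add₀ (by norm_num)]
    congr 1
    ring
  rw [f2] at f1
  exact le_of_mul_le_mul_left f1 (by positivity)

end Pool.OCS.G41
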