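import Pool.Agent.H70.OCS.Defs
import Pool.Agent.H41.OCS.Geo

/-!
# OCS, row SPS: the cells with an almost constant form
-/

set_option autoImplicit false

namespace Pool.OCS.SP2

open Finset Real
open Pool.Agent.H49.Ent Pool.Agent.H32.Dense Pool.STK Pool.KAF Pool.OCS.G41

variable {d : Dat}

theorem Qp_eq {j : ℕ} {w : d.Om × d.Om} (h : 0 < d.Qp j w) : d.Ti j w.1 = d.Ti j w.2 := by
  classical
  unfold Dat.Qp dbl glue at h
  by_contra hcon
  rw [if_neg (fun h' => hcon (Prod.ext_iff.1 h').2)] at h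
  exact lt_irrefl _ h

theorem ta_le' {i : ℕ} {ω ω' : d.Om} (h : d.Ti i ω = d.Ti i ω') :
    |d.ta (ω, ω')| ≤ (2 : ℝ) ^ (-(i : ℤ)) := by
  unfold Dat.Ti at h
  have h1 := fl_near (x := d.th (d.T ω)) (y := d.th (d.T ω')) (i : ℤ) (by
    rw [zpow_natCast]
    exact h)
  unfold Dat.ta
  rw [abs_sub_comm]
  exact h1

/-- The partners near the reference. -/
theorem par2 {k' : ℕ} {m : ℤ} {mu : d.Om × d.Om → ℤ} {n i₀ k₆ lam j i : ℕ}
    {w : d.Om × d.Om} {ω : d.Om} (hk₆ : 1 ≤ k₆) (hL : LabS d n i₀ k₆ lam m mu)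
    (hlam : lam + 1 ≤ i₀) (hi : i₀ ≤ i) (hj : i₀ ≤ j) (hw : 0 < d.Qp j w)
    (hB : w ∈ Bg d j k' m) (hT : d.Ti i w.1 = d.Ti i ω) (hta : d.ta (w.1, ω) ≠ 0)
    (hch : ‖d.ch (w.1, ω) - d.ch w‖ ≤ (2 : ℝ) ^ (1 - mu w)) :
    d.ta w ≠ 0 ∧ ∃ k'' : ℕ, Par d m mu lam i k'' 2 2 w ω := by
  obtain ⟨b1, b2⟩ := hB
  have h1 : d.ta w ≠ 0 := by
    have : (0 : ℝ) < |d.ta w| := lt_of_lt_of_le (by positivity) b2
    exact abs_pos.1 this
  refine ⟨h1, ?_⟩
  obtain ⟨k'', hk''⟩ : ∃ k'' : ℕ, (2 : ℝ) ^ (-((i : ℤ) + k'')) ≤ |d.ta (w.1, ω)| := by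
    have h2 : 0 < |d.ta (w.1, ω)| := abs_pos.2 hta
    obtain ⟨r, hr⟩ := exists_pow_lt_of_lt_one h2 (by norm_num : (1 / 2 : ℝ) < 1)
    refine ⟨r, le_trans ?_ hr.le⟩
    have h3 : (1 / 2 : ℝ) ^ r = (2 : ℝ) ^ (-(r : ℤ)) := by
      rw [zpow_neg, zpow_natCast, one_div, inv_pow]
    rw [h3]
    exact zpow_le_zpow_right₀ (by norm_num) (by omega)
  refine ⟨k'', ?_⟩
  have h2 := par_of d h1 b1 (ta_le' (Qp_eq hw)) hj hi (hL.hi w) hk'' (ta_le' hT) (B := 2) (by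
    refine hch.trans (le_of_eq ?_)
    rw [sub_eq_add_neg, zpow_add₀ (by norm_num), zpow_one])
  refine ⟨h2.t1, h2.t2, h2.ch, h2.om.trans (mul_le_mul_of_nonneg_right ?_ (by positivity))⟩
  have e1 : (2 : ℝ) ^ ((lam : ℤ) - i₀) ≤ (2 : ℝ) ^ (-1 : ℤ) :=
    zpow_le_zpow_right₀ (by norm_num) (by omega)
  have e2 : (2 : ℝ) ^ (-(k₆ : ℤ)) ≤ (2 : ℝ) ^ (-1 : ℤ) :=
    zpow_le_zpow_right₀ (by norm_num) (by omega)
  have e3 : (2 : ℝ) ^ (-1 : ℤ) = 1 / 2 := by norm_num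
  rw [e3] at e1 e2
  linarith

/-- **Row ZUP.** -/
theorem zup_thm : ZUPStmt := by
  intro d k' m mu n i₀ k₆ lam j i s w v ω hk₆ hL hlam hi hj _ hw hB hc hT hta hch
  obtain ⟨h1, k'', hpar⟩ := par2 hk₆ hL hlam hi hj hw hB hT hta hch
  refine (Z_range d h1 hpar hc).trans ?_
  have e1 : (2 : ℝ) ^ ((4 : ℤ) - (s + (mu w + i))) =
      16 * (2 : ℝ) ^ (-((s : ℤ) + mu w + i)) := by
    rw [show (4 : ℤ) - (s + (mu w + i)) = 4 + -((s : ℤ) + mu w + i) by ring,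
      zpow_add₀ (by norm_num)]
    norm_num
  rw [e1]
  exact mul_le_mul_of_nonneg_right (by norm_num) (by positivity)

/-- The good references are a function of the two times. -/
theorem Bg_congr {j k' : ℕ} {m : ℤ} {v w : d.Om × d.Om} (h1 : d.T v.1 = d.T w.1)
    (h2 : d.T v.2 = d.T w.2) : v ∈ Bg d j k' m ↔ w ∈ Bg d j k' m := by
  have e1 : d.sg v = d.sg w := by
    funext r
    unfold Dat.sg
    rw [h1, h2]
  have e2 : d.ta v = d.ta w := by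
    unfold Dat.ta
    rw [h1, h2]
  unfold Bg
  simp only [Set.mem_ofPred_eq]
  rw [e1, e2]

/-- The cells of the row SPS are the cells of stage A. -/
theorem cl_iff {m : ℤ} {mu : d.Om × d.Om → ℤ} {lam j k' s : ℕ} (hs : lam ≤ s)
    {w : d.Om × d.Om} (hB : w ∈ Bg d j k' m) (v : d.Om × d.Om) :
    Pool.SLO.Cl (lab d mu) (y4 d lam) (b1 d m mu j k') s v =
      Pool.SLO.Cl (lab d mu) (y4 d lam) (b1 d m mu j k') s w ↔
      d.GS mu lam s v = d.GS mu lam s w := by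
  have ho : ∀ x : ℝ, (2 : ℝ) ^ s * (x / 2 ^ lam) = 2 ^ (s - lam) * x := by
    intro x
    have : (2 : ℝ) ^ s = 2 ^ (s - lam) * 2 ^ lam := by
      rw [← pow_add, Nat.sub_add_cancel hs]
    rw [this]
    field_simp
  have hb : ∀ v : d.Om × d.Om, v ∈ Bg d j k' m → (2 : ℝ) ^ s * b1 d m mu j k' v 0 =
      (2 : ℝ) ^ ((s : ℤ) + mu v) * d.us v := by
    intro v hv
    unfold b1
    rw [if_pos hv, zpow_add₀ (by norm_num), zpow_natCast]
    ring
  unfold Pool.SLO.Cl Dat.GS lab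
  simp only [Prod.mk.injEq]
  constructor
  · rintro ⟨⟨h1, h2, h3⟩, h4, h5⟩
    have hv : v ∈ Bg d j k' m := (Bg_congr h1 h2).2 hB
    refine ⟨h1, h2, h3, ?_, ?_, ?_⟩
    · funext r
      fin_cases r
      · exact congrFun h4 0
      · exact congrFun h4 1
    · funext r
      fin_cases r
      · have h6 := congrFun h4 2
        unfold Pool.SLO.Yd at h6
        have h7 : ⌊(2 : ℝ) ^ s * (d.omR (d.L v.1) 0 / 2 ^ lam)⌋ =
          ⌊(2 : ℝ) ^ s * (d.omR (d.L w.1) 0 / 2 ^ lam)⌋ := h6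
        rw [ho, ho] at h7
        exact h7
      · have h6 := congrFun h4 3
        unfold Pool.SLO.Yd at h6
        have h7 : ⌊(2 : ℝ) ^ s * (d.omR (d.L v.1) 1 / 2 ^ lam)⌋ =
          ⌊(2 : ℝ) ^ s * (d.omR (d.L w.1) 1 / 2 ^ lam)⌋ := h6
        rw [ho, ho] at h7
        exact h7
    · have h6 := congrFun h5 0
      unfold Pool.SLO.Yd at h6
      rw [hb v hv, hb w hB] at h6
      exact h6
  · rintro ⟨h1, h2, h3, h4, h5, h6⟩
    have hv : v ∈ Bg d j k' m := (Bg_congr h1 h2).2 hB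
    refine ⟨⟨h1, h2, h3⟩, ?_, ?_⟩
    · funext r
      unfold Pool.SLO.Yd
      fin_cases r
      · exact congrFun h4 0
      · exact congrFun h4 1
      · show ⌊(2 : ℝ) ^ s * (d.omR (d.L v.1) 0 / 2 ^ lam)⌋ =
          ⌊(2 : ℝ) ^ s * (d.omR (d.L w.1) 0 / 2 ^ lam)⌋
        rw [ho, ho]
        exact congrFun h5 0
      · show ⌊(2 : ℝ) ^ s * (d.omR (d.L v.1) 1 / 2 ^ lam)⌋ =
          ⌊(2 : ℝ) ^ s * (d.omR (d.L w.1) 1 / 2 ^ lam)⌋
        rw [ho, ho]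
        exact congrFun h5 1
    · funext r
      have hr : r = 0 := Subsingleton.elim _ _
      subst hr
      unfold Pool.SLO.Yd
      rw [hb v hv, hb w hB]
      exact h6

theorem cond_congr {Ω S S' : Type} [Fintype Ω] {p : Ω → ℝ} {Z : Ω → S} {Z' : Ω → S'} {w : Ω}
    (h : ∀ v, Z v = Z w ↔ Z' v = Z' w) : cond p Z (Z w) = cond p Z' (Z' w) := by
  classical
  have h1 : law p Z (Z w) = law p Z' (Z' w) := by
    unfold law
    refine Finset.sum_congr rfl fun v _ => ?_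
    by_cases hv : Z v = Z w
    · rw [if_pos hv, if_pos ((h v).1 hv)]
    · rw [if_neg hv, if_neg (fun h' => hv ((h v).2 h'))]
  funext v
  unfold Pool.Agent.H49.Ent.cond
  rw [h1]
  by_cases hv : Z v = Z w
  · rw [if_pos hv, if_pos ((h v).1 hv)]
  · rw [if_neg hv, if_neg (fun h' => hv ((h v).2 h'))]

/-- **Row CEL.** -/
theorem cel_thm : CELStmt := by
  classical
  intro d K k' m mu n i₀ k₆ lam j i s k₁ e' w ω hP hk₆ hL hlam hi hj hs hw hB hT ht1 hch hK he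
  have hta : d.ta (w.1, ω) ≠ 0 := by
    have : (0 : ℝ) < |d.ta (w.1, ω)| := lt_of_lt_of_le (by positivity) ht1
    exact abs_pos.1 this
  obtain ⟨h1, k'', hpar⟩ := par2 hk₆ hL hlam hi hj hw hB hT hta hch
  have hQ : ∀ v, 0 ≤ d.Qp j v := fun v => by
    unfold Dat.Qp dbl
    exact glue_nonneg hP hP v
  -- the form
  obtain ⟨q₂, hq₂⟩ : ∃ q₂ : Fin 4 → ℝ, q₂ = ![(2 : ℝ) ^ (mu w) * (d.ch (w.1, ω) - d.ch w) 0,
      (2 : ℝ) ^ (mu w) * (d.ch (w.1, ω) - d.ch w) 1,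
      (2 : ℝ) ^ (mu w) * (2 ^ lam * (d.sg (w.1, ω) - d.sg w) 0),
      (2 : ℝ) ^ (mu w) * (2 ^ lam * (d.sg (w.1, ω) - d.sg w) 1)] := ⟨_, rfl⟩
  have hmu : (2 : ℝ) ^ (mu w) * (2 : ℝ) ^ (-mu w) = 1 := by
    rw [← zpow_add₀ (by norm_num), add_neg_cancel, zpow_zero]
  have hmu0 : (0 : ℝ) < (2 : ℝ) ^ (mu w) := by positivity
  have hc1 : ∀ r, |(2 : ℝ) ^ (mu w) * (d.ch (w.1, ω) - d.ch w) r| ≤ 2 := by
    intro r
    rw [abs_mul, abs_of_pos hmu0]
    have h2 : |(d.ch (w.1, ω) - d.ch w) r| ≤ 2 * (2 : ℝ) ^ (-mu w) := by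
      rw [← Real.norm_eq_abs]
      exact (norm_le_pi_norm _ r).trans hpar.ch
    have h3 := mul_le_mul_of_nonneg_left h2 hmu0.le
    linarith
  have hc2 : ∀ r, |(2 : ℝ) ^ (mu w) * (2 ^ lam * (d.sg (w.1, ω) - d.sg w) r)| ≤ 2 := by
    intro r
    rw [abs_mul, abs_of_pos hmu0, abs_mul, abs_of_pos (by positivity : (0 : ℝ) < 2 ^ lam)]
    have h2 : 2 ^ lam * |(d.sg (w.1, ω) - d.sg w) r| ≤ 2 * (2 : ℝ) ^ (-mu w) := by
      refine le_trans ?_ hpar.om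
      rw [← Real.norm_eq_abs, zpow_natCast]
      exact mul_le_mul_of_nonneg_left (norm_le_pi_norm _ r) (by positivity)
    have h3 := mul_le_mul_of_nonneg_left h2 hmu0.le
    linarith
  refine ⟨fun _ => ((fun _ => (1 : ℝ)), q₂), ⟨fun _ _ => 1, fun _ _ => by norm_num, ?_, ?_⟩,
    fun _ => ?_, fun _ => ?_⟩
  · intro a b
    have : a = b := Subsingleton.elim _ _
    rw [if_pos this]
    simp
  · intro a b
    have : a = b := Subsingleton.elim _ _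
    rw [if_pos this]
    simp
  · refine (pi_norm_le_iff_of_nonneg (by norm_num)).2 fun r => ?_
    rw [Real.norm_eq_abs, hq₂]
    fin_cases r
    · exact hc1 0
    · exact hc1 1
    · exact hc2 0
    · exact hc2 1
  · unfold Pool.SLO.Atm
    have hcc := cond_congr (p := d.Qp j) (fun v => cl_iff (mu := mu) hs hB v)
    rw [hcc]
    refine le_trans (Pool.KAF.Pr_mono (fun v => cond_nonneg hQ _ _ v) fun v hv hv2 => ?_) he
    have hG : d.GS mu lam s v = d.GS mu lam s w := ((cond_pos_iff hQ _ _ v).1 hv).2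
    obtain ⟨g1, g2, g3, -, -, -⟩ := cell d hG
    have hvB : v ∈ Bg d j k' m := (Bg_congr g1 g2).2 hB
    have e1 : Pool.SLO.Frm.ev ((fun _ => (1 : ℝ)), q₂) (b1 d m mu j k' v) (y4 d lam v) -
        Pool.SLO.Frm.ev ((fun _ => (1 : ℝ)), q₂) (b1 d m mu j k' w) (y4 d lam w) =
        (2 : ℝ) ^ (mu w) * ((d.ZR (d.T w.1) (d.T ω) (d.L v.1) -
          d.ZR (d.T w.1) (d.T ω) (d.L w.1)) / d.ta (w.1, ω)) := by
      have hta2 : d.ta v = d.ta w := by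
        unfold Dat.ta
        rw [g1, g2]
      have hus : d.us v = d.ZR (d.T w.1) (d.T w.2) (d.L v.1) / d.ta w := by
        unfold Dat.us
        rw [g1, g2, hta2]
      have hus2 : d.us w = d.ZR (d.T w.1) (d.T w.2) (d.L w.1) / d.ta w := rfl
      have hl : (2 : ℝ) ^ lam ≠ 0 := by positivity
      rw [Z_diff d h1 hta, mul_div_cancel_left₀ _ hta]
      unfold Pool.SLO.Frm.ev b1 y4
      rw [if_pos hvB, if_pos hB, hus, hus2, g3, g1, hq₂]
      simp only [Fin.sum_univ_four, Fin.sum_univ_one, Fin.sum_univ_two, Matrix.cons_val_zero,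
        Matrix.cons_val_one, Matrix.cons_val, Pi.sub_apply]
      field_simp
      ring
    have hv3 : 1 / (2 : ℝ) ^ (s + K) < |(2 : ℝ) ^ (mu w) * ((d.ZR (d.T w.1) (d.T ω) (d.L v.1) -
          d.ZR (d.T w.1) (d.T ω) (d.L w.1)) / d.ta (w.1, ω))| := by
      rw [← e1]
      exact hv2
    rw [abs_mul, abs_of_pos hmu0, abs_div, abs_sub_comm, ← mul_div_assoc,
      lt_div_iff₀ (abs_pos.2 hta)] at hv3
    show (2 : ℝ) ^ (-((s : ℤ) + (mu w + i) + k₁)) ≤ _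
    have e2 : (2 : ℝ) ^ (-((s : ℤ) + (mu w + i) + k₁)) ≤
        (2 : ℝ) ^ (-mu w) * (1 / (2 : ℝ) ^ (s + K) * |d.ta (w.1, ω)|) := by
      have e3 : (2 : ℝ) ^ (-mu w) * (1 / (2 : ℝ) ^ (s + K) * (2 : ℝ) ^ (-((i : ℤ) + k'))) =
          (2 : ℝ) ^ (-mu w + (-((s + K : ℕ) : ℤ) + -((i : ℤ) + k'))) := by
        rw [one_div, ← zpow_natCast, ← zpow_neg, ← zpow_add₀ (by norm_num),
          ← zpow_add₀ (by norm_num)]
      refine le_trans ?_ (mul_le_mul_of_nonneg_left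
        (mul_le_mul_of_nonneg_left ht1 (by positivity)) (by positivity))
      rw [e3]
      refine zpow_le_zpow_right₀ (by norm_num) ?_
      push_cast
      omega
    refine e2.trans ?_
    have e4 := mul_le_mul_of_nonneg_left hv3.le (by positivity : (0 : ℝ) ≤ (2 : ℝ) ^ (-mu w))
    refine e4.trans (le_of_eq ?_)
    rw [← mul_assoc, mul_comm ((2 : ℝ) ^ (-mu w)), hmu, one_mul]

end Pool.OCS.SP2
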