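import Pool.Agent.H41.OCS.Mean
import Pool.Agent.H41.L1.REMS

/-!
# OCS, row GRS
-/

set_option autoImplicit false

namespace Pool.OCS.G41

open Finset Real
open Pool.Agent.H49.Ent Pool.Agent.H32.Dense Pool.STK Pool.KAF Pool.SLO Pool.M5T

/-- The constants. -/
theorem consts {u ε₉ : ℝ} (hu : 0 < u) (hu1 : u ≤ 1) (hε₉ : 0 < ε₉) :
    ∃ (N₀ : ℕ) (η θ ν α δ θ₁ ε₈ e₀ : ℝ), 8 / u ≤ N₀ ∧ 0 < η ∧ η ≤ 1 ∧ 0 < θ ∧ 0 < ν ∧ 0 < α ∧
      0 < θ₁ ∧ 3 * δ < 1 ∧ 2 * θ / η + ν ≤ δ * ((u / 4) ^ 2 / 16) ∧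
      θ₁ + α + ν + (δ + (4 * N₀ ^ 2 + 1) * (α / θ)) < (u / 4) ^ 2 ∧ 0 < ε₈ ∧ 0 < e₀ ∧
      2 * (2 * ε₈ / ν + 512 * η / (u / 4) ^ 2 + ε₈ + (2 * e₀ + 2 * ε₈) / α + 2 * e₀ / θ₁ +
        (δ + (4 * N₀ ^ 2 + 1) * (α / θ))) ≤ ε₉ := by
  obtain ⟨N₀, hN₀⟩ := exists_nat_ge (8 / u)
  obtain ⟨c, hc⟩ : ∃ c : ℝ, c = (u / 4) ^ 2 := ⟨_, rfl⟩
  have hc0 : 0 < c := by rw [hc]; positivity
  have hc1 : c ≤ 1 / 16 := by rw [hc]; nlinarith only [hu1, hu]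
  obtain ⟨ε, hε⟩ : ∃ ε : ℝ, ε = min ε₉ 1 := ⟨_, rfl⟩
  have hε0 : 0 < ε := by rw [hε]; positivity
  have hε1 : ε ≤ 1 := by rw [hε]; exact min_le_right _ _
  have hε2 : ε ≤ ε₉ := by rw [hε]; exact min_le_left _ _
  obtain ⟨t, ht⟩ : ∃ t : ℝ, t = min (c / 8) (ε / 20) := ⟨_, rfl⟩
  have ht0 : 0 < t := by rw [ht]; positivity
  have ht1 : t ≤ c / 8 := by rw [ht]; exact min_le_left _ _
  have ht2 : t ≤ ε / 20 := by rw [ht]; exact min_le_right _ _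
  obtain ⟨η, hη⟩ : ∃ η : ℝ, η = c * ε / 10240 := ⟨_, rfl⟩
  have hη0 : 0 < η := by rw [hη]; positivity
  have hη1 : η ≤ 1 := by rw [hη]; nlinarith only [hu1, hc1, ht0, ht1, hε1, hu, hc, hε0]
  obtain ⟨ν, hν⟩ : ∃ ν : ℝ, ν = t * c / 64 := ⟨_, rfl⟩
  have hν0 : 0 < ν := by rw [hν]; positivity
  obtain ⟨θ, hθ⟩ : ∃ θ : ℝ, θ = η * (t * c) / 64 := ⟨_, rfl⟩
  have hθ0 : 0 < θ := by rw [hθ]; positivity
  obtain ⟨K, hK⟩ : ∃ K : ℝ, K = 4 * (N₀ : ℝ) ^ 2 + 1 := ⟨_, rfl⟩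
  have hK0 : 1 ≤ K := by rw [hK]; nlinarith only [sq_nonneg (N₀ : ℝ)]
  have hKp : 0 < K := by linarith only [hc1, ht0, ht1, hK0]
  obtain ⟨α, hα⟩ : ∃ α : ℝ, α = θ * t / K := ⟨_, rfl⟩
  have hα0 : 0 < α := by rw [hα]; positivity
  have hα1 : K * (α / θ) = t := by
    rw [hα]
    field_simp
  have hθ1 : θ ≤ 1 := by
    rw [hθ]
    have : t * c ≤ 1 := by nlinarith only [hu1, hη, hη0, hc1, hε1, ht1, hu, hc, hε0, ht0]
    nlinarith only [hε1, hη, hc1, hε0, ht0, ht1, hη0, this]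
  have hα2 : α ≤ t := by
    rw [hα, div_le_iff₀ hKp]
    have h1 : θ * t ≤ t := by nlinarith only [hc0, hc1, ht0, hθ1]
    have h2 : t ≤ t * K := by nlinarith only [ht0, hc0, hc1, hK]
    linarith only [h1, h2]
  obtain ⟨θ₁, hθ₁⟩ : ∃ θ₁ : ℝ, θ₁ = c / 8 := ⟨_, rfl⟩
  have hθ₁0 : 0 < θ₁ := by rw [hθ₁]; positivity
  obtain ⟨ε₈, hε₈⟩ : ∃ ε₈ : ℝ, ε₈ = min (min ν α) 1 * (ε / 40) := ⟨_, rfl⟩
  obtain ⟨e₀, he₀⟩ : ∃ e₀ : ℝ, e₀ = min α θ₁ * (ε / 40) := ⟨_, rfl⟩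
  have hε₈0 : 0 < ε₈ := by rw [hε₈]; positivity
  have he₀0 : 0 < e₀ := by rw [he₀]; positivity
  have q1 : ε₈ ≤ ν * (ε / 40) := by
    rw [hε₈]
    exact mul_le_mul_of_nonneg_right ((min_le_left _ _).trans (min_le_left _ _)) (by positivity)
  have q2 : ε₈ ≤ α * (ε / 40) := by
    rw [hε₈]
    exact mul_le_mul_of_nonneg_right ((min_le_left _ _).trans (min_le_right _ _)) (by positivity)
  have q3 : ε₈ ≤ 1 * (ε / 40) := by
    rw [hε₈]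
    exact mul_le_mul_of_nonneg_right (min_le_right _ _) (by positivity)
  have q4 : e₀ ≤ α * (ε / 40) := by
    rw [he₀]
    exact mul_le_mul_of_nonneg_right (min_le_left _ _) (by positivity)
  have q5 : e₀ ≤ θ₁ * (ε / 40) := by
    rw [he₀]
    exact mul_le_mul_of_nonneg_right (min_le_right _ _) (by positivity)
  refine ⟨N₀, η, θ, ν, α, t, θ₁, ε₈, e₀, hN₀, hη0, hη1, hθ0, hν0, hα0, hθ₁0, by nlinarith only [hc1, ht1], ?_, ?_,
    hε₈0, he₀0, ?_⟩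
  · rw [← hc]
    have e1 : 2 * θ / η = t * c / 32 := by
      rw [hθ]
      field_simp
      ring
    rw [e1, hν]
    have : 0 < t * c := by positivity
    linarith only [hν, hν0]
  · rw [← hc, ← hK, hα1]
    have : ν ≤ c / 64 := by
      rw [hν]
      have : t ≤ 1 := by linarith only [hc1, ht1]
      nlinarith only [hc, hη, hη0, hc1, hε1, ht1, hε0, ht0]
    linarith only [ht1, hν0, hα2, hθ₁, this]
  · rw [← hc, ← hK, hα1]
    have r1 : 2 * ε₈ / ν ≤ ε / 20 := by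
      rw [div_le_iff₀ hν0]
      linarith only [q1]
    have r2 : 512 * η / c ≤ ε / 20 := by
      rw [div_le_iff₀ hc0, hη]
      linarith only
    have r3 : (2 * e₀ + 2 * ε₈) / α ≤ ε / 10 := by
      rw [div_le_iff₀ hα0]
      linarith only [q2, q4]
    have r4 : 2 * e₀ / θ₁ ≤ ε / 20 := by
      rw [div_le_iff₀ hθ₁0]
      linarith only [q5]
    linarith only [hε2, ht2, hε₈0, q3, r1, r2, r3, r4]

/-- Markov on the good references. -/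
theorem mk_ind {Ω : Type} [Fintype Ω] {p : Ω → ℝ} (hp : IsLaw p) (G : Set Ω) (f : Ω → ℝ)
    (hf : ∀ ω, 0 < p ω → ω ∈ G → 0 ≤ f ω) {t R : ℝ} (ht : 0 < t)
    (h : Ex p (Set.indicator G f) ≤ R) : Pr p {ω | ω ∈ G ∧ t < f ω} ≤ R / t := by
  classical
  have h1 := Pool.L1.Pr_markov hp (Set.indicator G f) (fun ω hω => by
    by_cases h1 : ω ∈ G
    · rw [Set.indicator_of_mem h1]
      exact hf ω hω h1
    · rw [Set.indicator_of_notMem h1]) ht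
  refine (Pool.KAF.Pr_mono hp.nonneg fun ω _ hω => ?_).trans (h1.trans ?_)
  · show t < Set.indicator G f ω
    rw [Set.indicator_of_mem hω.1]
    exact hω.2
  · exact div_le_div_of_nonneg_right h ht.le

/-- A mean split by an event. -/
theorem Ex_split {Ω : Type} [Fintype Ω] {p : Ω → ℝ} (hp : IsLaw p) (F : Ω → ℝ) (E : Set Ω)
    {a b : ℝ} (hb : 0 ≤ b) (h1 : ∀ ω, 0 < p ω → F ω ≤ a)
    (h2 : ∀ ω, 0 < p ω → ω ∉ E → F ω ≤ b) : Ex p F ≤ a * Pr p E + b := by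
  classical
  have h3 : Ex p F ≤ Ex p (fun ω => a * (if ω ∈ E then (1 : ℝ) else 0) + b) := by
    refine Ex_mono hp.nonneg fun ω hω => ?_
    by_cases h : ω ∈ E
    · rw [if_pos h, mul_one]
      have := h1 ω hω
      linarith only [hb, this]
    · rw [if_neg h, mul_zero, zero_add]
      exact h2 ω hω h
  refine h3.trans (le_of_eq ?_)
  rw [Ex_add]
  have e1 : Ex p (fun ω => a * (if ω ∈ E then (1 : ℝ) else 0)) = a * Pr p E := by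
    rw [Pr_ex]
    unfold Ex
    rw [Finset.mul_sum]
    exact Finset.sum_congr rfl fun ω _ => by ring
  have e2 : Ex p (fun _ => b) = b := by
    unfold Ex
    rw [← Finset.sum_mul, hp.sum_one, one_mul]
  rw [e1, e2]

theorem pow_bd (N₀ a k' k₅ : ℕ) : ∃ (k₁₀ n₀ k₆₀ : ℕ), ∀ (n i₀ k₆ lam k₁ k : ℕ) (B κ ρ : ℝ),
    n₀ ≤ n → 64 * lam ≤ n → n / 16 ≤ i₀ → k₆₀ ≤ k₆ → k₁₀ ≤ k₁ → a + 12 ≤ k →
    B = 2 ^ (a + 4) → κ = B * (2 : ℝ) ^ ((lam : ℤ) - i₀) + 2 * (2 : ℝ) ^ (-(k₆ : ℤ)) →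
    ρ = (2 : ℝ) ^ ((k' : ℤ) - k₁) + 2 * κ → 0 ≤ κ ∧ 0 ≤ ρ ∧ 1 + 2 * B + 2 * κ ≤ 2 ^ k ∧
      (28 * N₀ + 6) * ρ * 2 ^ (a + k₅) ≤ 1 := by
  obtain ⟨T, hT⟩ : ∃ T : ℕ, T = (28 * N₀ + 6) + a + k₅ := ⟨_, rfl⟩
  refine ⟨k' + T + 2, 64 * (a + T + 8), T + 4, ?_⟩
  intro n i₀ k₆ lam k₁ k B κ ρ h1 h2 h3 h4 h5 h6 hB hκ hρ
  have e1 : (2 : ℝ) ^ ((k' : ℤ) - k₁) ≤ (2 : ℝ) ^ (-(T : ℤ) - 2) :=
    zpow_le_zpow_right₀ (by norm_num) (by omega)
  have e2 : (2 : ℝ) ^ (-(k₆ : ℤ)) ≤ (2 : ℝ) ^ (-(T : ℤ) - 2) / 4 := by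
    have : (2 : ℝ) ^ (-(T : ℤ) - 2) / 4 = (2 : ℝ) ^ (-(T : ℤ) - 4) := by
      rw [show (-(T : ℤ) - 2) = (-(T : ℤ) - 4) + 2 by ring, zpow_add₀ (by norm_num)]
      norm_num
    rw [this]
    exact zpow_le_zpow_right₀ (by norm_num) (by omega)
  have e3 : 2 * (B * (2 : ℝ) ^ ((lam : ℤ) - i₀)) ≤ (2 : ℝ) ^ (-(T : ℤ) - 2) := by
    have : 2 * (B * (2 : ℝ) ^ ((lam : ℤ) - i₀)) = (2 : ℝ) ^ (((a + 5 : ℕ) : ℤ) + (lam - i₀)) := by
      rw [hB, zpow_add₀ (by norm_num), zpow_natCast, pow_succ (2 : ℝ) (a + 4)]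
      ring
    rw [this]
    exact zpow_le_zpow_right₀ (by norm_num) (by omega)
  have p0 : (0 : ℝ) < (2 : ℝ) ^ (-(T : ℤ) - 2) := by positivity
  have p1 : (2 : ℝ) ^ (-(T : ℤ) - 2) ≤ 1 / 4 := by
    have : (1 / 4 : ℝ) = (2 : ℝ) ^ (-2 : ℤ) := by norm_num
    rw [this]
    exact zpow_le_zpow_right₀ (by norm_num) (by omega)
  have p2 : (2 : ℝ) ^ (-(T : ℤ) - 2) = (2 : ℝ) ^ (-(T : ℤ)) / 4 := by
    rw [zpow_sub₀ (by norm_num)]
    norm_num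
  have hB0 : 0 ≤ B := by rw [hB]; positivity
  have hκ0 : 0 ≤ κ := by rw [hκ]; positivity
  have hκ1 : 2 * κ ≤ 2 * (2 : ℝ) ^ (-(T : ℤ) - 2) := by
    rw [hκ]
    linarith only [e2, e3]
  refine ⟨hκ0, by rw [hρ]; positivity, ?_, ?_⟩
  · have h7 : (2 : ℝ) ^ (a + 12) ≤ 2 ^ k := pow_le_pow_right₀ (by norm_num) h6
    have h8 : (2 : ℝ) ^ (a + 12) = 256 * 2 ^ (a + 4) := by
      rw [show a + 12 = 8 + (a + 4) by ring, pow_add]
      norm_num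
    have h9 : (1 : ℝ) ≤ 2 ^ (a + 4) := one_le_pow₀ (by norm_num)
    rw [hB]
    linarith only [hκ, e2, e3, p0, p1, h7, h8, h9]
  · have h7 : ρ ≤ (2 : ℝ) ^ (-(T : ℤ)) := by
      rw [hρ]
      linarith only [hκ, e1, e2, e3, p0, p2]
    have h8 : (28 * (N₀ : ℝ) + 6) ≤ 2 ^ (28 * N₀ + 6) := by
      have : (28 * N₀ + 6 : ℕ) ≤ 2 ^ (28 * N₀ + 6) := Nat.lt_two_pow_self.le
      exact_mod_cast this
    have h9 : (2 : ℝ) ^ (-(T : ℤ)) = (2 ^ (28 * N₀ + 6) * 2 ^ (a + k₅))⁻¹ := by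
      rw [zpow_neg, zpow_natCast, ← pow_add, hT, add_assoc]
    have h10 : 0 ≤ ρ := by rw [hρ]; positivity
    calc (28 * (N₀ : ℝ) + 6) * ρ * 2 ^ (a + k₅)
        ≤ 2 ^ (28 * N₀ + 6) * (2 : ℝ) ^ (-(T : ℤ)) * 2 ^ (a + k₅) := by
          refine mul_le_mul_of_nonneg_right ?_ (by positivity)
          exact mul_le_mul h8 h7 h10 (by positivity)
      _ = 1 := by
          rw [h9]
          field_simp

/-- **Row GRS.** -/
theorem grs_thm : GRSStmt := by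
  classical
  intro u ε₉ hu hu1 hε₉
  obtain ⟨N₀, η, θ, ν, α, δ, θ₁, ε₈, e₀, hN₀, hη, hη1, hθ, hν, hα, hθ₁, hδ, hc, hc2, hε₈, he₀,
    hfin⟩ := consts hu hu1 hε₉
  refine ⟨ε₈, hε₈, fun A a k' k₅ => ?_⟩
  obtain ⟨k₁₀, n₀, k₆₀, hpb⟩ := pow_bd N₀ a k' k₅
  refine ⟨k₁₀, n₀, k₆₀, e₀, he₀, ?_⟩
  intro d J m mu n h g i₀ k₆ lam j k k₁ e hOK hS hn₀ hg hlam hi₀ hi₀n hnj hj hk₆ hL hk hk₁ he hR
    hR0 hJ1 hSP hNL hTB
  have hp := hOK.law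
  have hQ := Qp_isLaw hp j
  obtain ⟨B, hB⟩ : ∃ B : ℝ, B = 2 ^ (a + 4) := ⟨_, rfl⟩
  obtain ⟨κ, hκ⟩ : ∃ κ : ℝ, κ = B * (2 : ℝ) ^ ((lam : ℤ) - i₀) + 2 * (2 : ℝ) ^ (-(k₆ : ℤ)) :=
    ⟨_, rfl⟩
  obtain ⟨ρ, hρ⟩ : ∃ ρ : ℝ, ρ = (2 : ℝ) ^ ((k' : ℤ) - k₁) + 2 * κ := ⟨_, rfl⟩
  obtain ⟨hκ0, hρ0, hBk, hρ2⟩ := hpb n i₀ k₆ lam k₁ k B κ ρ hn₀ hlam hi₀ hk₆ hk₁ hk hB hκ hρ
  obtain ⟨n', hn'⟩ : ∃ n' : ℕ, n' = 2 * n - i₀ := ⟨_, rfl⟩
  obtain ⟨X', hX'⟩ : ∃ X' : ℕ, X' = d.X - 16 * n := ⟨_, rfl⟩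
  have s1 := hS.h1
  have s2 := hS.hn
  have s3 := hS.nX
  have hX0 : 0 < X' := by omega
  have hn0 : 0 < n' := by omega
  have hXr : (0 : ℝ) < X' := by exact_mod_cast hX0
  have hnr : (0 : ℝ) < n' := by exact_mod_cast hn0
  have hXX : (d.X : ℝ) ≤ 2 * X' := by
    have : d.X ≤ 2 * X' := by omega
    exact_mod_cast this
  have hnn : (n : ℝ) ≤ n' := by
    have : n ≤ n' := by omega
    exact_mod_cast this
  have hnn2 : (n' : ℝ) ≤ 2 * n := by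
    have : n' ≤ 2 * n := by omega
    exact_mod_cast this
  have hn0r : (0 : ℝ) ≤ n := Nat.cast_nonneg n
  -- the time distances
  have hTB' : ∑ i ∈ Finset.Ico i₀ (2 * n), Pr (d.Qp i)
      {w | |d.ta w| < (2 : ℝ) ^ (-((i : ℤ) + k'))} ≤ ε₈ * n' := by
    refine (hTB i₀ (2 * n) (by omega) (by omega)).trans (le_of_eq ?_)
    congr 1
    rw [hn', Nat.cast_sub (by omega)]
  -- the means
  obtain ⟨M, hM0, hM1, hM2, hM3⟩ := hSP
  have hA := Af_mean hp hL hB hκ hρ (by omega) hn' hX' hR hBk hNL hTB'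
  have hG := Ag_mean (n' := n') (a := a) (k' := k') hp hL hκ0 hρ hX' hR0
  have hBm := Bf_mean hp mu lam n j X' hη.le
  have hMm : Ex (d.Qp j) (Set.indicator (Bg d j k' m) (fun w => ∑ s ∈ range X', M (8 * n + s) w)) ≤
      ε₈ * d.X := by
    refine le_trans (le_of_eq ?_) hM3
    rw [Finset.sum_Ico_eq_sum_range, show d.X - 8 * n - 8 * n = X' by omega]
    have h3 : ∀ w, Set.indicator (Bg d j k' m) (fun w => ∑ s ∈ range X', M (8 * n + s) w) w =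
        ∑ s ∈ range X', Set.indicator (Bg d j k' m) (M (8 * n + s)) w := by
      intro w
      by_cases hwB : w ∈ Bg d j k' m
      · simp only [Set.indicator_of_mem hwB]
      · simp only [Set.indicator_of_notMem hwB, Finset.sum_const_zero]
    unfold Ex
    simp only [h3, Finset.mul_sum]
    exact Finset.sum_comm
  -- the exceptional sets
  have hc0 : 0 < (u / 4) ^ 2 := by positivity
  have b1 := mk_ind hQ (Bg d j k' m) (fun w => ∑ s ∈ range X', M (8 * n + s) w)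
    (fun w _ _ => Finset.sum_nonneg fun s _ => hM0 _ _) (t := ν * X') (by positivity) hMm
  have b2 := Pool.L1.Pr_markov hQ (fun w => ((Bf d mu lam n j X' η w).card : ℝ))
    (fun w _ => Nat.cast_nonneg _) (θ := (u / 4) ^ 2 * X' / 16) (by positivity)
  have b3 : Pr (d.Qp j) {w | ¬ Jgd J h u w.1} ≤ ε₈ := by
    have h1 := (Qp_fst hp j).ex (fun ω => if ω ∈ {ω | ¬ Jgd J h u ω} then (1 : ℝ) else 0)
    refine le_trans (le_of_eq ?_) (J1_Jgd hp hJ1)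
    rw [Pr_ex {ω | ¬ Jgd J h u ω}, ← h1, Pr_ex]
    rfl
  have b4 := mk_ind hQ (Bg d j k' m) (Af J mu lam n i₀ j a n' X' ρ) (fun w hw _ => by
    unfold Af
    refine Finset.sum_nonneg fun i _ => Finset.sum_nonneg fun s _ => ?_
    split_ifs
    · exact Ex_nonneg (pk_isLaw hp _ (Qp_pos hp hw).1).nonneg fun ω _ =>
        Pool.KAF.Pr_nonneg (rk_isLaw hp mu _ hw).nonneg _
    · exact le_rfl) (t := α * (n' * X')) (by positivity) hA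
  have b5 := mk_ind hQ (Bg d j k' m) (Ag J mu lam n j a n' X' ρ) (fun w hw _ => by
    unfold Ag
    exact Finset.sum_nonneg fun s _ => Pool.KAF.Pr_nonneg (rk_isLaw hp mu _ hw).nonneg _)
    (t := θ₁ * X') (by positivity) hG
  have r1 : ε₈ * d.X / (ν * X') ≤ 2 * ε₈ / ν := by
    rw [div_le_div_iff₀ (by positivity) hν]
    have : ε₈ * d.X ≤ ε₈ * (2 * X') := mul_le_mul_of_nonneg_left hXX hε₈.le
    nlinarith only [hν, this]
  have r2 : Ex (d.Qp j) (fun w => ((Bf d mu lam n j X' η w).card : ℝ)) / ((u / 4) ^ 2 * X' / 16) ≤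
      512 * η / (u / 4) ^ 2 := by
    rw [div_le_div_iff₀ (by positivity) hc0]
    nlinarith only [hBm]
  have r4 : (n' * (e * d.X) + X' * (ε₈ * n' + ε₈ * n)) / (α * (n' * X')) ≤
      (2 * e₀ + 2 * ε₈) / α := by
    rw [div_le_div_iff₀ (by positivity) hα]
    have t1 : e * d.X ≤ e₀ * (2 * X') :=
      (mul_le_mul_of_nonneg_right he (Nat.cast_nonneg _)).trans
        (mul_le_mul_of_nonneg_left hXX he₀.le)
    have t2 : n' * (e * d.X) ≤ n' * (e₀ * (2 * X')) := mul_le_mul_of_nonneg_left t1 hnr.le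
    have t3 : ε₈ * n ≤ ε₈ * n' := mul_le_mul_of_nonneg_left hnn hε₈.le
    have t4 : X' * (ε₈ * n' + ε₈ * n) ≤ X' * (2 * (ε₈ * n')) :=
      mul_le_mul_of_nonneg_left (by linarith only [t3]) hXr.le
    have t5 : (n' * (e * d.X) + X' * (ε₈ * n' + ε₈ * n)) ≤ (2 * e₀ + 2 * ε₈) * (n' * X') := by
      linarith only [t2, t4]
    have t6 := mul_le_mul_of_nonneg_right t5 hα.le
    linarith only [t6]
  have r5 : e * d.X / (θ₁ * X') ≤ 2 * e₀ / θ₁ := by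
    rw [div_le_div_iff₀ (by positivity) hθ₁]
    have t1 : e * d.X ≤ e₀ * (2 * X') :=
      (mul_le_mul_of_nonneg_right he (Nat.cast_nonneg _)).trans
        (mul_le_mul_of_nonneg_left hXX he₀.le)
    nlinarith only [hθ₁, t1]
  -- the exceptional set
  obtain ⟨E, hE⟩ : ∃ E : Set (d.Om × d.Om), E =
      {w | w ∈ Bg d j k' m ∧ ν * X' < ∑ s ∈ range X', M (8 * n + s) w} ∪
      ({w | (u / 4) ^ 2 * X' / 16 < ((Bf d mu lam n j X' η w).card : ℝ)} ∪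
      ({w | ¬ Jgd J h u w.1} ∪
      ({w | w ∈ Bg d j k' m ∧ α * (n' * X') < Af J mu lam n i₀ j a n' X' ρ w} ∪
      {w | w ∈ Bg d j k' m ∧ θ₁ * X' < Ag J mu lam n j a n' X' ρ w}))) := ⟨_, rfl⟩
  have hEp : Pr (d.Qp j) E ≤ 2 * ε₈ / ν + 512 * η / (u / 4) ^ 2 + ε₈ + (2 * e₀ + 2 * ε₈) / α +
      2 * e₀ / θ₁ := by
    rw [hE]
    have u1 := Pr_union_le hQ.nonneg {w | w ∈ Bg d j k' m ∧ ν * X' < ∑ s ∈ range X', M (8 * n + s) w}
      ({w | (u / 4) ^ 2 * X' / 16 < ((Bf d mu lam n j X' η w).card : ℝ)} ∪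
      ({w | ¬ Jgd J h u w.1} ∪
      ({w | w ∈ Bg d j k' m ∧ α * (n' * X') < Af J mu lam n i₀ j a n' X' ρ w} ∪
      {w | w ∈ Bg d j k' m ∧ θ₁ * X' < Ag J mu lam n j a n' X' ρ w})))
    have u2 := Pr_union_le hQ.nonneg
      {w | (u / 4) ^ 2 * X' / 16 < ((Bf d mu lam n j X' η w).card : ℝ)}
      ({w | ¬ Jgd J h u w.1} ∪
      ({w | w ∈ Bg d j k' m ∧ α * (n' * X') < Af J mu lam n i₀ j a n' X' ρ w} ∪
      {w | w ∈ Bg d j k' m ∧ θ₁ * X' < Ag J mu lam n j a n' X' ρ w}))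
    have u3 := Pr_union_le hQ.nonneg {w | ¬ Jgd J h u w.1}
      ({w | w ∈ Bg d j k' m ∧ α * (n' * X') < Af J mu lam n i₀ j a n' X' ρ w} ∪
      {w | w ∈ Bg d j k' m ∧ θ₁ * X' < Ag J mu lam n j a n' X' ρ w})
    have u4 := Pr_union_le hQ.nonneg
      {w | w ∈ Bg d j k' m ∧ α * (n' * X') < Af J mu lam n i₀ j a n' X' ρ w}
      {w | w ∈ Bg d j k' m ∧ θ₁ * X' < Ag J mu lam n j a n' X' ρ w}
    linarith only [b1, b2, b3, b4, b5, r1, r2, r4, r5, u1, u2, u3, u4]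
  -- the mean
  obtain ⟨C, hC⟩ : ∃ C : ℝ, C = δ + (4 * (N₀ : ℝ) ^ 2 + 1) * (α / θ) := ⟨_, rfl⟩
  have hδ0 : 0 ≤ δ := by
    by_contra hcon
    push Not at hcon
    have h1 : 0 < 2 * θ / η + ν := by positivity
    have h2 : δ * ((u / 4) ^ 2 / 16) < 0 := mul_neg_of_neg_of_pos hcon (by positivity)
    linarith only [hc, h1, h2]
  have hC0 : 0 ≤ C := by rw [hC]; positivity
  have hmean : AGP d m mu n i₀ j k' k₅ ε₉ := by
    unfold AGP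
    have h1 : ∑ i ∈ Finset.Ico i₀ (2 * n), Pr (d.Q3 j i) {u | u.1 ∈ Bg d j k' m ∧
        (2 : ℝ) ^ (-(mu u.1 + k₅)) < ‖d.ch (u.1.1, u.2) - d.ch u.1‖} =
        Ex (d.Qp j) (fun w => ∑ i ∈ Finset.Ico i₀ (2 * n), Pr (pk d i w.1)
          {ω | (w, ω) ∈ {u : (d.Om × d.Om) × d.Om | u.1 ∈ Bg d j k' m ∧
        (2 : ℝ) ^ (-(mu u.1 + k₅)) < ‖d.ch (u.1.1, u.2) - d.ch u.1‖}}) := by
      simp only [Pr_Q3 hp]
      unfold Ex
      simp only [Finset.mul_sum]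
      exact Finset.sum_comm
    rw [h1]
    refine (Ex_split hQ _ E (a := n') (b := C * n') (by positivity) (fun w hw => ?_)
      (fun w hw hwE => ?_)).trans ?_
    · have h2 : ∀ i ∈ Finset.Ico i₀ (2 * n), Pr (pk d i w.1)
          {ω | (w, ω) ∈ {u : (d.Om × d.Om) × d.Om | u.1 ∈ Bg d j k' m ∧
        (2 : ℝ) ^ (-(mu u.1 + k₅)) < ‖d.ch (u.1.1, u.2) - d.ch u.1‖}} ≤ 1 := fun i _ =>
        Pool.KAF.Pr_le_one (pk_isLaw hp i (Qp_pos hp hw).1) _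
      refine (Finset.sum_le_sum h2).trans (le_of_eq ?_)
      rw [Finset.sum_const, Nat.card_Ico, ← hn', nsmul_eq_mul, mul_one]
    · by_cases hwB : w ∈ Bg d j k' m
      · have g1 : ∑ s ∈ range X', M (8 * n + s) w ≤ ν * X' := by
          by_contra hcon
          push Not at hcon
          exact hwE (by rw [hE]; exact Or.inl ⟨hwB, hcon⟩)
        have g2 : ((Bf d mu lam n j X' η w).card : ℝ) ≤ (u / 4) ^ 2 * X' / 16 := by
          by_contra hcon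
          push Not at hcon
          exact hwE (by rw [hE]; exact Or.inr (Or.inl hcon))
        have g3 : Jgd J h u w.1 := by
          by_contra hcon
          exact hwE (by rw [hE]; exact Or.inr (Or.inr (Or.inl hcon)))
        have g4 : Af J mu lam n i₀ j a n' X' ρ w ≤ α * (n' * X') := by
          by_contra hcon
          push Not at hcon
          exact hwE (by rw [hE]; exact Or.inr (Or.inr (Or.inr (Or.inl ⟨hwB, hcon⟩))))
        have g5 : Ag J mu lam n j a n' X' ρ w ≤ θ₁ * X' := by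
          by_contra hcon
          push Not at hcon
          exact hwE (by rw [hE]; exact Or.inr (Or.inr (Or.inr (Or.inr ⟨hwB, hcon⟩))))
        have key := loc hp hS hL hi₀n hj hn' hX' hu hu1 hN₀ hρ0 hη hη1 hθ hδ hc hc2 hρ2 M hM0 hw
          (fun s hs => hM2 s hs w hw hwB) g1 g2 g3 g4 g5
        rw [hC]
        refine le_trans (Finset.sum_le_sum fun i _ => ?_) key
        refine Pool.KAF.Pr_mono (pk_isLaw hp i (Qp_pos hp hw).1).nonneg fun ω _ hω => hω.2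
      · have h2 : ∀ i ∈ Finset.Ico i₀ (2 * n), Pr (pk d i w.1)
          {ω | (w, ω) ∈ {u : (d.Om × d.Om) × d.Om | u.1 ∈ Bg d j k' m ∧
        (2 : ℝ) ^ (-(mu u.1 + k₅)) < ‖d.ch (u.1.1, u.2) - d.ch u.1‖}} = 0 := by
          intro i _
          rw [Pool.KAF.Pr_eq]
          exact Finset.sum_eq_zero fun ω _ => if_neg fun hω => hwB hω.1
        rw [Finset.sum_congr rfl h2, Finset.sum_const_zero]
        positivity
    · rw [← hC] at hfin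
      have h2 : n' * Pr (d.Qp j) E + C * n' ≤ n' * (2 * ε₈ / ν + 512 * η / (u / 4) ^ 2 + ε₈ +
          (2 * e₀ + 2 * ε₈) / α + 2 * e₀ / θ₁ + C) := by
        have := mul_le_mul_of_nonneg_left hEp hnr.le
        linarith only [this]
      refine h2.trans ?_
      have h3 : 0 ≤ 2 * ε₈ / ν + 512 * η / (u / 4) ^ 2 + ε₈ +
          (2 * e₀ + 2 * ε₈) / α + 2 * e₀ / θ₁ + C := by positivity
      have h4 := mul_le_mul_of_nonneg_right hnn2 h3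
      refine h4.trans ?_
      have h5 := mul_le_mul_of_nonneg_right hfin hn0r
      linarith only [h5]
  exact hmean

end Pool.OCS.G41
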