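import Pool.Agent.H41.OCS.Prob
import Pool.Agent.H41.OCS.One

/-!
# OCS, row GRS: one pair (base, reference)
-/

set_option autoImplicit false

namespace Pool.OCS.G41

open Finset Real
open Pool.Agent.H49.Ent Pool.Agent.H32.Dense Pool.STK Pool.KAF Pool.SLO Pool.M5T

variable {d : Dat}

/-- The difference of the reference form. -/
noncomputable def db (w v : d.Om × d.Om) : ℝ :=
  d.ZR (d.T w.1) (d.T w.2) (d.L v.1) / d.ta w - d.ZR (d.T w.1) (d.T w.2) (d.L w.1) / d.ta w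

/-- The linear form `ξ` at the difference of the positions. -/
noncomputable def Bp (w : d.Om × d.Om) (ξ : Fin 2 → ℝ) (v : d.Om × d.Om) : ℝ :=
  ∑ r, ξ r * (d.pt (d.T w.1) (d.L v.1) r - d.pt (d.T w.1) (d.L w.1) r)

theorem Bp_sub (w : d.Om × d.Om) (ξ ξ' : Fin 2 → ℝ) (v : d.Om × d.Om) :
    Bp w (ξ - ξ') v = Bp w ξ v - Bp w ξ' v := by
  unfold Bp
  rw [← Finset.sum_sub_distrib]
  exact Finset.sum_congr rfl fun r _ => by rw [Pi.sub_apply]; ring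

noncomputable def Yk (n a s : ℕ) : ℝ := (2 : ℝ) ^ (-((8 * n + s + a : ℕ) : ℤ))

theorem Yk_pos (n a s : ℕ) : 0 < Yk n a s := by unfold Yk; positivity

theorem Yk_two (n a s : ℕ) : Yk n a s ≤ 2 * Yk n a (s + 1) := by
  unfold Yk
  refine le_of_eq ?_
  rw [show (-((8 * n + s + a : ℕ) : ℤ)) = 1 + (-((8 * n + (s + 1) + a : ℕ) : ℤ)) by push_cast; ring,
    zpow_add₀ (by norm_num), zpow_one]

/-- The precision. -/
noncomputable def hk (mu : d.Om × d.Om → ℤ) (a : ℕ) (ρ : ℝ) (w : d.Om × d.Om) : ℝ :=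
  ρ * (2 : ℝ) ^ ((a : ℤ) - mu w)

theorem hk_Yk (mu : d.Om × d.Om → ℤ) (a n s : ℕ) (ρ : ℝ) (w : d.Om × d.Om) :
    hk mu a ρ w * Yk n a s = ρ * (2 : ℝ) ^ (-(((8 * n + s : ℕ) : ℤ) + mu w)) := by
  unfold hk Yk
  rw [mul_assoc, ← zpow_add₀ (by norm_num)]
  congr 2
  push_cast
  ring

/-- The shift of the rows. -/
def shf (mu : d.Om × d.Om → ℤ) (n i : ℕ) (w : d.Om × d.Om) : ℕ := (8 * n + mu w + i).toNat

open Classical in
/-- The rows hit by the partners. -/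
noncomputable def Jf (J : d.Om → Set ℕ) (mu : d.Om × d.Om → ℤ) (n i₀ n' X' : ℕ)
    (w : d.Om × d.Om) : Finset ℕ :=
  (range X').filter (fun x => n' ≤ x ∧ shf mu n i₀ w + x ∈ J w.1)

open Classical in
/-- The depths at which the reference is seen. -/
noncomputable def Jg (J : d.Om → Set ℕ) (mu : d.Om × d.Om → ℤ) (n j n' X' : ℕ)
    (w : d.Om × d.Om) : Finset ℕ :=
  (range X').filter (fun x => n' ≤ x ∧ x + n' ≤ X' ∧ shf mu n j w + x ∈ J w.1)

/-- The blocks of rows contain many heavy rows. -/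
def Jgd (J : d.Om → Set ℕ) (h : ℕ) (u : ℝ) (ω : d.Om) : Prop :=
  ∀ j : ℕ, (j + 2) * h ≤ d.X →
    u * h ≤ (Set.ncard {r | r ∈ J ω ∧ j * h ≤ r ∧ r < (j + 1) * h} : ℝ)

theorem J1_Jgd {J : d.Om → Set ℕ} {h : ℕ} {u π₁ : ℝ} (hp : IsLaw d.P)
    (hJ : d.toR.J1 J h u π₁ ∅) : Pr d.P {ω | ¬ Jgd J h u ω} ≤ π₁ := by
  refine (Pool.KAF.Pr_mono hp.nonneg ?_).trans hJ
  intro ω _ hω
  have hω' : ¬ Jgd J h u ω := hω
  unfold Jgd at hω'
  push Not at hω'
  obtain ⟨j, h1, h2⟩ := hω'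
  exact ⟨j, Set.notMem_empty _, h1, h2⟩

open Classical in
theorem shift_card (S : Set ℕ) (c lo hi : ℕ) (G : Finset ℕ)
    (hG : ∀ x, lo ≤ x → x < hi → c + x ∈ S → x ∈ G) :
    ((Finset.Ico (c + lo) (c + hi)).filter (· ∈ S)).card ≤ G.card := by
  refine Finset.card_le_card_of_injOn (fun x => x - c) (fun x hx => ?_) (fun x hx y hy hxy => ?_)
  · have h1 := mem_filter.1 (Finset.mem_coe.1 hx)
    have h2 := mem_Ico.1 h1.1
    refine Finset.mem_coe.2 (hG (x - c) (by omega) (by omega) ?_)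
    rw [show c + (x - c) = x by omega]
    exact h1.2
  · have h1 := mem_Ico.1 (mem_filter.1 (Finset.mem_coe.1 hx)).1
    have h2 := mem_Ico.1 (mem_filter.1 (Finset.mem_coe.1 hy)).1
    simp only at hxy
    omega

section sizes

variable {J : d.Om → Set ℕ} {mu : d.Om × d.Om → ℤ} {n h i₀ j k₆ lam n' X' : ℕ} {m : ℤ} {u : ℝ}

theorem shf_le (hS : Siz d n h m) (hL : LabS d n i₀ k₆ lam m mu) (hi : i₀ ≤ n) {i : ℕ}
    (hi2 : i < 2 * n) (w : d.Om × d.Om) : shf mu n i w ≤ 13 * n ∧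
      ((shf mu n i w : ℕ) : ℤ) = 8 * n + mu w + i := by
  have h1 := hL.lo w
  have h2 := hL.hi w
  have h3 := hS.m2
  unfold shf
  constructor
  · omega
  · omega

theorem Jf_card (hS : Siz d n h m) (hL : LabS d n i₀ k₆ lam m mu) (hi : i₀ ≤ n)
    (hn' : n' = 2 * n - i₀) (hX' : X' = d.X - 16 * n) (hu : 0 ≤ u) {w : d.Om × d.Om}
    (hJ : Jgd J h u w.1) (hn : 1 ≤ n) : u / 4 * X' ≤ ((Jf J mu n i₀ n' X' w).card : ℝ) := by
  classical
  have s1 := hS.h1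
  have s2 := hS.hn
  have s3 := hS.nX
  obtain ⟨e1, -⟩ := shf_le hS hL hi (i := i₀) (by omega) w
  have h1 := dens hu s1 hJ (shf mu n i₀ w + n') (shf mu n i₀ w + X') (by omega) (by omega)
  have h2 := shift_card (J w.1) (shf mu n i₀ w) n' X' (Jf J mu n i₀ n' X' w)
    (fun x a b c => mem_filter.2 ⟨mem_range.2 b, a, c⟩)
  have h3 : ((Finset.Ico (shf mu n i₀ w + n') (shf mu n i₀ w + X')).filter (· ∈ J w.1)).card ≤
      ((Jf J mu n i₀ n' X' w).card : ℝ) := by exact_mod_cast h2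
  have h4 : 2 * (n' : ℝ) ≤ X' := by
    have : 2 * n' ≤ X' := by omega
    exact_mod_cast this
  push_cast at h1
  have h5 : u / 4 * X' ≤ u / 2 * ((shf mu n i₀ w : ℝ) + X' - (shf mu n i₀ w + n')) := by
    have : 0 ≤ u * (X' - 2 * n') := mul_nonneg hu (by linarith)
    nlinarith
  linarith

theorem Jg_card (hS : Siz d n h m) (hL : LabS d n i₀ k₆ lam m mu) (hi : i₀ ≤ n)
    (hj : j < 2 * n)
    (hn' : n' = 2 * n - i₀) (hX' : X' = d.X - 16 * n) (hu : 0 ≤ u) {w : d.Om × d.Om}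
    (hJ : Jgd J h u w.1) : u / 4 * X' ≤ ((Jg J mu n j n' X' w).card : ℝ) := by
  classical
  have s1 := hS.h1
  have s2 := hS.hn
  have s3 := hS.nX
  obtain ⟨e1, -⟩ := shf_le hS hL hi (i := j) hj w
  have h1 := dens hu s1 hJ (shf mu n j w + n') (shf mu n j w + (X' - n')) (by omega) (by omega)
  have h2 := shift_card (J w.1) (shf mu n j w) n' (X' - n') (Jg J mu n j n' X' w)
    (fun x a b c => mem_filter.2 ⟨mem_range.2 (by omega), a, by omega, c⟩)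
  have h3 : ((Finset.Ico (shf mu n j w + n') (shf mu n j w + (X' - n'))).filter
      (· ∈ J w.1)).card ≤ ((Jg J mu n j n' X' w).card : ℝ) := by exact_mod_cast h2
  have h4 : 4 * (n' : ℝ) ≤ X' := by
    have : 4 * n' ≤ X' := by omega
    exact_mod_cast this
  have h6 : ((X' - n' : ℕ) : ℝ) = X' - n' := by
    rw [Nat.cast_sub (by omega)]
  push_cast at h1
  rw [h6] at h1
  have h5 : u / 4 * X' ≤ u / 2 * ((shf mu n j w : ℝ) + (X' - n') - (shf mu n j w + n')) := by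
    have : 0 ≤ u * (X' - 4 * n') := mul_nonneg hu (by linarith)
    nlinarith
  linarith

open Classical in
theorem hit_card (hS : Siz d n h m) (hL : LabS d n i₀ k₆ lam m mu) (hi : i₀ ≤ n)
    (hn' : n' = 2 * n - i₀) (hX' : X' = d.X - 16 * n) (hu : 0 ≤ u) {w : d.Om × d.Om}
    (hJ : Jgd J h u w.1) (hn : 1 ≤ n) {s : ℕ} (hs : s ∈ Jg J mu n j n' X' w) :
    u / 4 * n' ≤ (((range n').filter (fun i => s + i ∈ Jf J mu n i₀ n' X' w)).card : ℝ) := by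
  have s1 := hS.h1
  have s2 := hS.hn
  have s3 := hS.nX
  obtain ⟨-, a1, a2, -⟩ := mem_filter.1 hs
  obtain ⟨e1, -⟩ := shf_le hS hL hi (i := i₀) (by omega) w
  have h1 := dens hu s1 hJ (shf mu n i₀ w + s + 0) (shf mu n i₀ w + s + n') (by omega) (by omega)
  have h2 := shift_card (J w.1) (shf mu n i₀ w + s) 0 n'
    ((range n').filter (fun i => s + i ∈ Jf J mu n i₀ n' X' w))
    (fun x a b c => mem_filter.2 ⟨mem_range.2 b, mem_filter.2 ⟨mem_range.2 (by omega), by omega, by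
      rw [← add_assoc]
      exact c⟩⟩)
  have h3 : ((Finset.Ico (shf mu n i₀ w + s + 0) (shf mu n i₀ w + s + n')).filter
      (· ∈ J w.1)).card ≤
      (((range n').filter (fun i => s + i ∈ Jf J mu n i₀ n' X' w)).card : ℝ) := by
    exact_mod_cast h2
  push_cast at h1
  have h5 : u / 4 * n' ≤ u / 2 * ((shf mu n i₀ w : ℝ) + s + n' - (shf mu n i₀ w + s + 0)) := by
    have : (0 : ℝ) ≤ u * n' := by positivity
    nlinarith
  linarith

end sizes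

open Classical in
/-- The defect of the forms of the partners. -/
noncomputable def Af (J : d.Om → Set ℕ) (mu : d.Om × d.Om → ℤ) (lam n i₀ j a n' X' : ℕ) (ρ : ℝ)
    (w : d.Om × d.Om) : ℝ :=
  ∑ i ∈ range n', ∑ s ∈ range X', (if s + i ∈ Jf J mu n i₀ n' X' w then
    Ex (pk d (i₀ + i) w.1) (fun ω => Pr (rk d mu lam j (8 * n + s) w) {v |
      hk mu a ρ w * Yk n a s < |db w v - Bp w (d.ch (w.1, ω) - d.ch w) v|}) else 0)

/-- The defect of the form of the reference. -/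
noncomputable def Ag (J : d.Om → Set ℕ) (mu : d.Om × d.Om → ℤ) (lam n j a n' X' : ℕ) (ρ : ℝ)
    (w : d.Om × d.Om) : ℝ :=
  ∑ s ∈ Jg J mu n j n' X' w, Pr (rk d mu lam j (8 * n + s) w) {v | hk mu a ρ w * Yk n a s < |db w v|}

/-- **One pair.** -/
theorem loc {J : d.Om → Set ℕ} {mu : d.Om × d.Om → ℤ} {n h i₀ j k₆ lam n' X' a k₅ N₀ : ℕ} {m : ℤ}
    {u ρ η θ θ₁ α ν δ : ℝ} (hp : IsLaw d.P) (hS : Siz d n h m) (hL : LabS d n i₀ k₆ lam m mu)
    (hi : i₀ ≤ n) (hj : j < 2 * n) (hn' : n' = 2 * n - i₀) (hX' : X' = d.X - 16 * n)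
    (hu : 0 < u) (hu1 : u ≤ 1) (hN₀ : 8 / u ≤ N₀) (hρ : 0 ≤ ρ) (hη : 0 < η) (hη1 : η ≤ 1)
    (hθ : 0 < θ) (hδ : 3 * δ < 1) (hc : 2 * θ / η + ν ≤ δ * ((u / 4) ^ 2 / 16))
    (hc2 : θ₁ + α + ν + (δ + (4 * N₀ ^ 2 + 1) * (α / θ)) < (u / 4) ^ 2)
    (hρ2 : (28 * N₀ + 6) * ρ * 2 ^ (a + k₅) ≤ 1)
    (M : ℕ → d.Om × d.Om → ℝ) (hM0 : ∀ s w, 0 ≤ M s w) {w : d.Om × d.Om} (hw : 0 < d.Qp j w)
    (hM : ∀ s ∈ Finset.Ico (8 * n) (d.X - 8 * n), ∀ ξ : Fin 2 → ℝ, 0 < ‖ξ‖ →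
      Pr (cond (d.Qp j) (d.GS mu lam s) (d.GS mu lam s w))
        {v | |∑ r, ξ r * (d.pt (d.T w.1) (d.L v.1) r - d.pt (d.T w.1) (d.L w.1) r)| <
          ‖ξ‖ * (2 : ℝ) ^ (-((s : ℤ) + a))} ≤ M s w)
    (q1 : ∑ s ∈ range X', M (8 * n + s) w ≤ ν * X')
    (q2 : ((Bf d mu lam n j X' η w).card : ℝ) ≤ (u / 4) ^ 2 * X' / 16)
    (q3 : Jgd J h u w.1) (q4 : Af J mu lam n i₀ j a n' X' ρ w ≤ α * (n' * X'))
    (q5 : Ag J mu lam n j a n' X' ρ w ≤ θ₁ * X') :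
    ∑ i ∈ Finset.Ico i₀ (2 * n), Pr (pk d i w.1)
      {ω | (2 : ℝ) ^ (-(mu w + k₅)) < ‖d.ch (w.1, ω) - d.ch w‖} ≤
      (δ + (4 * N₀ ^ 2 + 1) * (α / θ)) * n' := by
  classical
  have s1 := hS.h1
  have s2 := hS.hn
  have s3 := hS.nX
  have hn : 1 ≤ n := by omega
  have hX0 : 0 < X' := by omega
  have hn0 : 0 < n' := by omega
  have hXr : (0 : ℝ) < X' := by exact_mod_cast hX0
  have hnr : (0 : ℝ) < n' := by exact_mod_cast hn0
  have hwP : 0 < d.P w.1 := (Qp_pos hp hw).1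
  have key := one_ref (T := d.Om) (D := d.Om × d.Om) (E := Fin 2 → ℝ) (Bp w) (Bp_sub w) n' X' N₀
    hn0 hX0 (u / 4) (by linarith) (by linarith) (by
      refine le_trans (le_of_eq ?_) hN₀
      field_simp
      ring) (by omega) (Jf J mu n i₀ n' X' w) (fun x hx => by
      obtain ⟨h1, h2, h3⟩ := mem_filter.1 hx
      exact ⟨h2, mem_range.1 h1⟩) (Jf_card hS hL hi hn' hX' hu.le q3 hn)
    (Jg J mu n j n' X' w) (fun s hs => mem_range.1 (mem_filter.1 hs).1)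
    (fun s hs => hit_card hS hL hi hn' hX' hu.le q3 hn hs)
    (Jg_card hS hL hi hj hn' hX' hu.le q3)
    (fun i => pk d (i₀ + i) w.1) (fun i _ => pk_isLaw hp _ hwP)
    (fun s => rk d mu lam j (8 * n + s) w) (fun s _ => rk_isLaw hp mu _ hw)
    (fun _ ω => d.ch (w.1, ω) - d.ch w) (db w) (Yk n a) (Yk_pos n a) (Yk_two n a) (hk mu a ρ w)
    (by unfold hk; positivity) (Bf d mu lam n j X' η w) η hη hη1
    (fun s hs hsB v => Bf_use hp hw (by omega) hsB v) q2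
    (fun s => M (8 * n + s) w) (α * (n' * X')) (ν * X') θ θ₁ δ hθ hδ q4
    (fun s _ => hM0 _ _) (fun s hs ξ => by
      by_cases hξ : 0 < ‖ξ‖
      · refine le_trans (le_of_eq ?_) (hM (8 * n + s) (mem_Ico.2 ⟨by omega, by omega⟩) ξ hξ)
        unfold rk Bp Yk
        congr 1
      · refine le_trans (le_of_eq ?_) (hM0 _ _)
        rw [Pool.KAF.Pr_eq]
        refine Finset.sum_eq_zero fun v _ => if_neg ?_
        simp only [Set.mem_ofPred_eq, not_lt]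
        have h0 : ‖ξ‖ = 0 := le_antisymm (not_lt.1 hξ) (norm_nonneg _)
        rw [h0, zero_mul]
        exact abs_nonneg _) q1 (by
      have e1 : 2 * θ / η * X' + ν * X' = (2 * θ / η + ν) * X' := by ring
      have e2 : δ * ((u / 4) ^ 2 / 16 * X') = δ * ((u / 4) ^ 2 / 16) * X' := by ring
      rw [e1, e2]
      exact mul_le_mul_of_nonneg_right hc hXr.le) q5 (by
      refine lt_of_eq_of_lt ?_ hc2
      field_simp)
  have e1 : (28 * (N₀ : ℝ) + 6) * hk mu a ρ w ≤ (2 : ℝ) ^ (-(mu w + k₅)) := by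
    have e2 : (28 * (N₀ : ℝ) + 6) * hk mu a ρ w =
        ((28 * N₀ + 6) * ρ * 2 ^ (a + k₅)) * (2 : ℝ) ^ (-(mu w + k₅)) := by
      unfold hk
      have : (2 : ℝ) ^ ((a : ℤ) - mu w) = 2 ^ (a + k₅) * (2 : ℝ) ^ (-(mu w + k₅)) := by
        rw [← zpow_natCast, ← zpow_add₀ (by norm_num)]
        congr 1
        push_cast
        ring
      rw [this]
      ring
    rw [e2]
    exact mul_le_of_le_one_left (by positivity) hρ2
  have e3 : δ * (n' : ℝ) + (4 * N₀ ^ 2 + 1) * (α * (n' * X') / (θ * X')) =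
      (δ + (4 * N₀ ^ 2 + 1) * (α / θ)) * n' := by
    field_simp
  rw [← e3, Finset.sum_Ico_eq_sum_range, ← hn']
  refine le_trans (Finset.sum_le_sum fun i _ => ?_) key
  refine Pool.KAF.Pr_mono (pk_isLaw hp _ hwP).nonneg fun ω _ hω => ?_
  exact e1.trans_lt hω

end Pool.OCS.G41
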