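import Pool.Agent.H41.OCS.Loc

/-!
# OCS, row GRS: the means of the defects
-/

set_option autoImplicit false

namespace Pool.OCS.G41

open Finset Real
open Pool.Agent.H49.Ent Pool.Agent.H32.Dense Pool.STK Pool.KAF Pool.SLO Pool.M5T

variable {d : Dat}

/-- The good values of the label and the times. -/
def WS (d : Dat) (lam i k' : ℕ) (B κ : ℝ) : Set (ℤ × d.Tau × d.Tau × d.Tau) :=
  {x | ((2 : ℝ) ^ (-((i : ℤ) + k')) ≤ |d.th x.2.2.2 - d.th x.2.1| ∧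
      |d.th x.2.2.2 - d.th x.2.1| ≤ (2 : ℝ) ^ (-(i : ℤ)) ∧
      ‖(fun r => (d.S x.2.2.2 r - d.S x.2.1 r) / (d.th x.2.2.2 - d.th x.2.1)) -
        (fun r => (d.S x.2.2.1 r - d.S x.2.1 r) / (d.th x.2.2.1 - d.th x.2.1))‖ ≤
        B * (2 : ℝ) ^ (-x.1) ∧
      (2 : ℝ) ^ (lam : ℤ) *
        ‖(fun r => d.S x.2.2.2 r - d.S x.2.1 r) - (fun r => d.S x.2.2.1 r - d.S x.2.1 r)‖ ≤
        κ * (2 : ℝ) ^ (-x.1)) ∧ d.th x.2.2.1 - d.th x.2.1 ≠ 0}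

theorem WS_iff (m : ℤ) (mu : d.Om × d.Om → ℤ) (lam i k' : ℕ) (B κ : ℝ) (w : d.Om × d.Om)
    (ω : d.Om) : (mu w, d.T w.1, d.T w.2, d.T ω) ∈ WS d lam i k' B κ ↔
      Par d m mu lam i k' B κ w ω ∧ d.ta w ≠ 0 :=
  ⟨fun h => ⟨⟨h.1.1, h.1.2.1, h.1.2.2.1, h.1.2.2.2⟩, h.2⟩,
    fun h => ⟨⟨h.1.t1, h.1.t2, h.1.ch, h.1.om⟩, h.2⟩⟩

/-- The defect of one partner at one depth. -/
noncomputable def IND (J : d.Om → Set ℕ) (mu : d.Om × d.Om → ℤ) (lam j k' k₁ i : ℕ) (B κ : ℝ)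
    (s : ℕ) (u : (d.Om × d.Om) × d.Om) : ℝ :=
  Set.indicator
      {u : (d.Om × d.Om) × d.Om | (mu u.1, d.T u.1.1, d.T u.1.2, d.T u.2) ∈ WS d lam i k' B κ ∧
        0 ≤ (s : ℤ) + (mu u.1 + i) ∧ ((s : ℤ) + (mu u.1 + i)).toNat ∈ J u.1.1}
      (fun u => Pr (cond (d.Qp j) (d.GS mu lam s) (d.GS mu lam s u.1))
        {v | (2 : ℝ) ^ (-((s : ℤ) + (mu u.1 + i) + k₁)) ≤
          |d.ZR (d.T u.1.1) (d.T u.2) (d.L u.1.1) -
            d.ZR (d.T u.1.1) (d.T u.2) (d.L v.1)|}) u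

theorem RowS_use {J : d.Om → Set ℕ} {mu : d.Om × d.Om → ℤ} {lam n j k k' k₁ i : ℕ} {e B κ : ℝ}
    (hR : RowS d J mu lam n j k k₁ e) (hi : i < 4 * n) (hB : 1 + 2 * B + 2 * κ ≤ 2 ^ k) :
    ∑ s ∈ Finset.Ico (8 * n) (d.X - 8 * n), Ex (d.Q3 j i) (IND J mu lam j k' k₁ i B κ s) ≤
      e * d.X := by
  refine hR i hi (fun m₀ _ _ _ => m₀ + i) (WS d lam i k' B κ) fun u v s hu hv hW hs hG => ?_
  obtain ⟨h1, h2⟩ := (WS_iff 0 mu lam i k' B κ u.1 u.2).1 hW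
  refine (Z_range d h2 h1 hG).trans ?_
  have e1 : (2 : ℝ) ^ ((k : ℤ) - ((s : ℤ) + (mu u.1 + i))) =
      2 ^ k * (2 : ℝ) ^ (-((s : ℤ) + mu u.1 + i)) := by
    rw [← zpow_natCast, ← zpow_add₀ (by norm_num)]
    congr 1
    ring
  rw [e1]
  exact mul_le_mul_of_nonneg_right hB (by positivity)

theorem IND_nonneg (hp : IsLaw d.P) (J : d.Om → Set ℕ) (mu : d.Om × d.Om → ℤ)
    (lam j k' k₁ i : ℕ) (B κ : ℝ) (s : ℕ) {u : (d.Om × d.Om) × d.Om} (hu : 0 < d.Qp j u.1) :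
    0 ≤ IND J mu lam j k' k₁ i B κ s u := by
  unfold IND
  refine Set.indicator_apply_nonneg fun _ => ?_
  exact Pool.KAF.Pr_nonneg (rk_isLaw hp mu s hu).nonneg _

/-- One partner at one depth. -/
theorem term_le {J : d.Om → Set ℕ} {mu : d.Om × d.Om → ℤ} {n i₀ j k' k₁ k₆ lam n' X' a : ℕ}
    {m : ℤ} {B κ ρ : ℝ} (hp : IsLaw d.P) (hL : LabS d n i₀ k₆ lam m mu)
    (hB : B = 2 ^ (a + 4)) (hκ : κ = B * (2 : ℝ) ^ ((lam : ℤ) - i₀) + 2 * (2 : ℝ) ^ (-(k₆ : ℤ)))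
    (hρ : ρ = (2 : ℝ) ^ ((k' : ℤ) - k₁) + 2 * κ) (hj : i₀ ≤ j)
    {w : d.Om × d.Om} (hw : 0 < d.Qp j w) (hwB : w ∈ Bg d j k' m) {i s : ℕ}
    (hs : s + i ∈ Jf J mu n i₀ n' X' w) {ω : d.Om} (hω : 0 < pk d (i₀ + i) w.1 ω) {x₁ x₂ : ℝ}
    (hx₁ : 0 ≤ x₁) (hx₂ : 0 ≤ x₂)
    (g₁ : |d.ta (w.1, ω)| < (2 : ℝ) ^ (-(((i₀ + i : ℕ) : ℤ) + k')) → 1 ≤ x₁)
    (g₂ : w ∈ Bg d j k' m ∧ (2 : ℝ) ^ ((a : ℤ) + 4 - mu w) < ‖d.ch (w.1, ω) - d.ch w‖ →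
      1 ≤ x₂) :
    Pr (rk d mu lam j (8 * n + s) w) {v |
      hk mu a ρ w * Yk n a s < |db w v - Bp w (d.ch (w.1, ω) - d.ch w) v|} ≤
      IND J mu lam j k' k₁ (i₀ + i) B κ (8 * n + s) (w, ω) + (x₁ + x₂) := by
  classical
  have hrk := rk_isLaw (lam := lam) hp mu (8 * n + s) hw
  have h0 : 0 ≤ IND J mu lam j k' k₁ (i₀ + i) B κ (8 * n + s) (w, ω) := IND_nonneg hp _ _ _ _ _ _ _ _ _ _ hw
  have h1 := Pool.KAF.Pr_le_one hrk {v |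
      hk mu a ρ w * Yk n a s < |db w v - Bp w (d.ch (w.1, ω) - d.ch w) v|}
  by_cases c1 : |d.ta (w.1, ω)| < (2 : ℝ) ^ (-(((i₀ + i : ℕ) : ℤ) + k'))
  · have := g₁ c1
    linarith
  by_cases c2 : w ∈ Bg d j k' m ∧ (2 : ℝ) ^ ((a : ℤ) + 4 - mu w) < ‖d.ch (w.1, ω) - d.ch w‖
  · have := g₂ c2
    linarith
  rw [not_lt] at c1
  have c3 : ‖d.ch (w.1, ω) - d.ch w‖ ≤ B * (2 : ℝ) ^ (-mu w) := by
    rw [not_and, not_lt] at c2
    refine (c2 hwB).trans (le_of_eq ?_)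
    rw [hB, ← zpow_natCast, ← zpow_add₀ (by norm_num)]
    congr 1
  obtain ⟨b1, b2⟩ := hwB
  have hta : d.ta w ≠ 0 := by
    have : (0 : ℝ) < |d.ta w| := lt_of_lt_of_le (by positivity) b2
    exact abs_pos.1 this
  have hpar : Par d m mu lam (i₀ + i) k' B κ w ω := by
    rw [hκ]
    exact par_of d hta b1 (ta_le (Qp_pos hp hw).2.2.2) hj (by omega) (hL.hi w) c1 (pk_ta hp hω) c3
  obtain ⟨-, -, g3⟩ := mem_filter.1 hs
  have hrow : ((8 * n + s : ℕ) : ℤ) + (mu w + (i₀ + i : ℕ)) =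
      ((shf mu n i₀ w + (s + i) : ℕ) : ℤ) := by
    have e1 := hL.lo w
    have e2 : ((shf mu n i₀ w : ℕ) : ℤ) = 8 * n + mu w + i₀ := by
      unfold shf
      omega
    push_cast
    omega
  have hmem : (w, ω) ∈ {u : (d.Om × d.Om) × d.Om |
      (mu u.1, d.T u.1.1, d.T u.1.2, d.T u.2) ∈ WS d lam (i₀ + i) k' B κ ∧
        0 ≤ ((8 * n + s : ℕ) : ℤ) + (mu u.1 + (i₀ + i : ℕ)) ∧
        (((8 * n + s : ℕ) : ℤ) + (mu u.1 + (i₀ + i : ℕ))).toNat ∈ J u.1.1} := by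
    refine ⟨(WS_iff m mu _ _ _ _ _ w ω).2 ⟨hpar, hta⟩, ?_, ?_⟩
    · show 0 ≤ ((8 * n + s : ℕ) : ℤ) + (mu w + (i₀ + i : ℕ))
      rw [hrow]
      exact Int.natCast_nonneg _
    · show (((8 * n + s : ℕ) : ℤ) + (mu w + (i₀ + i : ℕ))).toNat ∈ J w.1
      rw [hrow, Int.toNat_natCast]
      exact g3
  refine le_trans ?_ (le_add_of_nonneg_right (add_nonneg hx₁ hx₂))
  unfold IND
  rw [Set.indicator_of_mem hmem]
  refine Pool.KAF.Pr_mono hrk.nonneg fun v hv hv2 => ?_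
  by_contra hcon
  have hcon' : |d.ZR (d.T w.1) (d.T ω) (d.L w.1) - d.ZR (d.T w.1) (d.T ω) (d.L v.1)| ≤
      (2 : ℝ) ^ (-(((8 * n + s : ℕ) : ℤ) + (mu w + (i₀ + i : ℕ)) + k₁)) := (not_le.1 hcon).le
  have h2 := Z_atomic d hta hpar (rk_pos hp hv).2 hcon'
  rw [← hρ, ← hk_Yk mu a n s ρ w] at h2
  exact absurd h2 (not_le.2 hv2)

/-- **The mean of the defects of the partners.** -/
theorem Af_mean {J : d.Om → Set ℕ} {mu : d.Om × d.Om → ℤ} {n i₀ j k k' k₁ k₆ lam n' X' a : ℕ}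
    {m : ℤ} {B κ ρ e ε₈ : ℝ} (hp : IsLaw d.P) (hL : LabS d n i₀ k₆ lam m mu)
    (hB : B = 2 ^ (a + 4)) (hκ : κ = B * (2 : ℝ) ^ ((lam : ℤ) - i₀) + 2 * (2 : ℝ) ^ (-(k₆ : ℤ)))
    (hρ : ρ = (2 : ℝ) ^ ((k' : ℤ) - k₁) + 2 * κ) (hj : i₀ ≤ j)
    (hn' : n' = 2 * n - i₀) (hX' : X' = d.X - 16 * n)
    (hR : RowS d J mu lam n j k k₁ e) (hBk : 1 + 2 * B + 2 * κ ≤ 2 ^ k)
    (hNL : NLS d m mu n i₀ j k' a ε₈)
    (hTB : ∑ i ∈ Finset.Ico i₀ (2 * n), Pr (d.Qp i) {w | |d.ta w| < (2 : ℝ) ^ (-((i : ℤ) + k'))} ≤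
      ε₈ * n') :
    Ex (d.Qp j) (Set.indicator (Bg d j k' m) (Af J mu lam n i₀ j a n' X' ρ)) ≤
      n' * (e * d.X) + X' * (ε₈ * n' + ε₈ * n) := by
  classical
  have hQ := Qp_isLaw hp j
  -- one term
  have h1 : ∀ i ∈ range n', ∀ s ∈ range X', Ex (d.Qp j) (Set.indicator (Bg d j k' m) (fun w =>
      if s + i ∈ Jf J mu n i₀ n' X' w then
        Ex (pk d (i₀ + i) w.1) (fun ω => Pr (rk d mu lam j (8 * n + s) w) {v |
          hk mu a ρ w * Yk n a s < |db w v - Bp w (d.ch (w.1, ω) - d.ch w) v|}) else 0)) ≤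
      Ex (d.Q3 j (i₀ + i)) (IND J mu lam j k' k₁ (i₀ + i) B κ (8 * n + s)) +
      (Pr (d.Qp (i₀ + i)) {w | |d.ta w| < (2 : ℝ) ^ (-(((i₀ + i : ℕ) : ℤ) + k'))} +
      Pr (d.Q3 j (i₀ + i)) {u | u.1 ∈ Bg d j k' m ∧
        (2 : ℝ) ^ ((a : ℤ) + 4 - mu u.1) < ‖d.ch (u.1.1, u.2) - d.ch u.1‖}) := by
    intro i _ s _
    rw [Ex_Q3 hp, ← Ex_pk hp j (i₀ + i) {w | |d.ta w| <
      (2 : ℝ) ^ (-(((i₀ + i : ℕ) : ℤ) + k'))}, Pr_Q3 hp, ← Ex_add, ← Ex_add]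
    refine Ex_mono hQ.nonneg fun w hw => ?_
    have hwP : 0 < d.P w.1 := (Qp_pos hp hw).1
    have hpk := pk_isLaw hp (i₀ + i) hwP
    have p1 : 0 ≤ Ex (pk d (i₀ + i) w.1)
        (fun ω => IND J mu lam j k' k₁ (i₀ + i) B κ (8 * n + s) (w, ω)) :=
      Ex_nonneg hpk.nonneg fun ω _ => IND_nonneg hp _ _ _ _ _ _ _ _ _ _ hw
    have p2 := Pool.KAF.Pr_nonneg hpk.nonneg {ω | (w.1, ω) ∈ {w : d.Om × d.Om | |d.ta w| <
      (2 : ℝ) ^ (-(((i₀ + i : ℕ) : ℤ) + k'))}}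
    have p3 := Pool.KAF.Pr_nonneg hpk.nonneg {ω | (w, ω) ∈ {u : (d.Om × d.Om) × d.Om |
      u.1 ∈ Bg d j k' m ∧
        (2 : ℝ) ^ ((a : ℤ) + 4 - mu u.1) < ‖d.ch (u.1.1, u.2) - d.ch u.1‖}}
    by_cases hwB : w ∈ Bg d j k' m
    · rw [Set.indicator_of_mem hwB]
      by_cases hs : s + i ∈ Jf J mu n i₀ n' X' w
      · rw [if_pos hs, Pr_ex, Pr_ex, ← Ex_add, ← Ex_add]
        refine Ex_mono hpk.nonneg fun ω hω => ?_
        refine term_le hp hL hB hκ hρ hj hw hwB hs hω (by split_ifs <;> norm_num)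
          (by split_ifs <;> norm_num) (fun h => ?_) (fun h => ?_)
        · rw [if_pos (show ω ∈ {ω | (w.1, ω) ∈ {w : d.Om × d.Om | |d.ta w| <
            (2 : ℝ) ^ (-(((i₀ + i : ℕ) : ℤ) + k'))}} from h)]
        · rw [if_pos (show ω ∈ {ω | (w, ω) ∈ {u : (d.Om × d.Om) × d.Om |
            u.1 ∈ Bg d j k' m ∧
            (2 : ℝ) ^ ((a : ℤ) + 4 - mu u.1) < ‖d.ch (u.1.1, u.2) - d.ch u.1‖}} from h)]
      · rw [if_neg hs]
        linarith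
    · rw [Set.indicator_of_notMem hwB]
      linarith
  -- the sum
  have h2 : Ex (d.Qp j) (Set.indicator (Bg d j k' m) (Af J mu lam n i₀ j a n' X' ρ)) =
      ∑ i ∈ range n', ∑ s ∈ range X', Ex (d.Qp j) (Set.indicator (Bg d j k' m) (fun w =>
      if s + i ∈ Jf J mu n i₀ n' X' w then
        Ex (pk d (i₀ + i) w.1) (fun ω => Pr (rk d mu lam j (8 * n + s) w) {v |
          hk mu a ρ w * Yk n a s < |db w v - Bp w (d.ch (w.1, ω) - d.ch w) v|}) else 0)) := by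
    have h3 : ∀ w, Set.indicator (Bg d j k' m) (Af J mu lam n i₀ j a n' X' ρ) w =
        ∑ i ∈ range n', ∑ s ∈ range X', Set.indicator (Bg d j k' m) (fun w =>
      if s + i ∈ Jf J mu n i₀ n' X' w then
        Ex (pk d (i₀ + i) w.1) (fun ω => Pr (rk d mu lam j (8 * n + s) w) {v |
          hk mu a ρ w * Yk n a s < |db w v - Bp w (d.ch (w.1, ω) - d.ch w) v|}) else 0) w := by
      intro w
      by_cases hwB : w ∈ Bg d j k' m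
      · simp only [Set.indicator_of_mem hwB]
        rfl
      · simp only [Set.indicator_of_notMem hwB, Finset.sum_const_zero]
    unfold Ex
    simp only [h3, Finset.mul_sum]
    rw [Finset.sum_comm]
    exact Finset.sum_congr rfl fun i _ => Finset.sum_comm
  rw [h2]
  refine (Finset.sum_le_sum fun i hi => Finset.sum_le_sum fun s hs => h1 i hi s hs).trans ?_
  simp only [Finset.sum_add_distrib, Finset.sum_const, card_range, nsmul_eq_mul]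
  rw [← Finset.mul_sum, ← Finset.mul_sum]
  have h4 : ∑ i ∈ range n', ∑ s ∈ range X', Ex (d.Q3 j (i₀ + i))
      (IND J mu lam j k' k₁ (i₀ + i) B κ (8 * n + s)) ≤ n' * (e * d.X) := by
    have h5 : ∀ i ∈ range n', ∑ s ∈ range X', Ex (d.Q3 j (i₀ + i))
        (IND J mu lam j k' k₁ (i₀ + i) B κ (8 * n + s)) ≤ e * d.X := by
      intro i hi'
      have h6 := RowS_use (k' := k') (i := i₀ + i) hR (by have := mem_range.1 hi'; omega) hBk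
      rw [Finset.sum_Ico_eq_sum_range, show d.X - 8 * n - 8 * n = X' by omega] at h6
      exact h6
    refine (Finset.sum_le_sum h5).trans (le_of_eq ?_)
    rw [Finset.sum_const, card_range, nsmul_eq_mul]
  have h5 : ∑ i ∈ range n', Pr (d.Qp (i₀ + i)) {w | |d.ta w| <
      (2 : ℝ) ^ (-(((i₀ + i : ℕ) : ℤ) + k'))} ≤ ε₈ * n' := by
    rw [Finset.sum_Ico_eq_sum_range, ← hn'] at hTB
    exact hTB
  have h6 : ∑ i ∈ range n', Pr (d.Q3 j (i₀ + i)) {u | u.1 ∈ Bg d j k' m ∧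
        (2 : ℝ) ^ ((a : ℤ) + 4 - mu u.1) < ‖d.ch (u.1.1, u.2) - d.ch u.1‖} ≤ ε₈ * n := by
    unfold NLS at hNL
    rw [Finset.sum_Ico_eq_sum_range, ← hn'] at hNL
    exact hNL
  have hXr : (0 : ℝ) ≤ X' := Nat.cast_nonneg _
  have h7 := mul_le_mul_of_nonneg_left h5 hXr
  have h8 := mul_le_mul_of_nonneg_left h6 hXr
  linarith

/-- The good values of the label and the times, for the reference. -/
def WS0 (d : Dat) (j k' : ℕ) : Set (ℤ × d.Tau × d.Tau) :=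
  {x | (2 : ℝ) ^ (-((j : ℤ) + k')) ≤ |d.th x.2.2 - d.th x.2.1| ∧
      |d.th x.2.2 - d.th x.2.1| ≤ (2 : ℝ) ^ (-(j : ℤ))}

/-- **The mean of the defects of the reference.** -/
theorem Ag_mean {J : d.Om → Set ℕ} {mu : d.Om × d.Om → ℤ} {n i₀ j k k' k₁ k₆ lam n' X' a : ℕ}
    {m : ℤ} {κ ρ e : ℝ} (hp : IsLaw d.P) (hL : LabS d n i₀ k₆ lam m mu) (hκ : 0 ≤ κ)
    (hρ : ρ = (2 : ℝ) ^ ((k' : ℤ) - k₁) + 2 * κ)
    (hX' : X' = d.X - 16 * n) (hR : RowS0 d J mu lam n j k k₁ e) :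
    Ex (d.Qp j) (Set.indicator (Bg d j k' m) (Ag J mu lam n j a n' X' ρ)) ≤ e * d.X := by
  classical
  have hQ := Qp_isLaw hp j
  have h1 := hR (fun m₀ _ _ => m₀ + j) (WS0 d j k') (fun u v s hu hv hW hs hG => by
    have hta : d.ta u ≠ 0 := by
      have : (0 : ℝ) < |d.ta u| := lt_of_lt_of_le (by positivity) hW.1
      exact abs_pos.1 this
    refine (Z_range0 d hta hW.2 hG).trans ?_
    refine zpow_le_zpow_right₀ (by norm_num) ?_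
    omega)
  refine le_trans ?_ h1
  rw [Finset.sum_Ico_eq_sum_range, show d.X - 8 * n - 8 * n = X' by omega]
  have h2 : ∑ s ∈ range X', Ex (d.Qp j) (Set.indicator
      {u : d.Om × d.Om | (mu u, d.T u.1, d.T u.2) ∈ WS0 d j k' ∧
        0 ≤ ((8 * n + s : ℕ) : ℤ) + (mu u + j) ∧
        (((8 * n + s : ℕ) : ℤ) + (mu u + j)).toNat ∈ J u.1}
      (fun u => Pr (cond (d.Qp j) (d.GS mu lam (8 * n + s)) (d.GS mu lam (8 * n + s) u))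
        {v | (2 : ℝ) ^ (-(((8 * n + s : ℕ) : ℤ) + (mu u + j) + k₁)) ≤
          |d.ZR (d.T u.1) (d.T u.2) (d.L u.1) - d.ZR (d.T u.1) (d.T u.2) (d.L v.1)|})) =
      Ex (d.Qp j) (fun w => ∑ s ∈ range X', Set.indicator
      {u : d.Om × d.Om | (mu u, d.T u.1, d.T u.2) ∈ WS0 d j k' ∧
        0 ≤ ((8 * n + s : ℕ) : ℤ) + (mu u + j) ∧
        (((8 * n + s : ℕ) : ℤ) + (mu u + j)).toNat ∈ J u.1}
      (fun u => Pr (cond (d.Qp j) (d.GS mu lam (8 * n + s)) (d.GS mu lam (8 * n + s) u))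
        {v | (2 : ℝ) ^ (-(((8 * n + s : ℕ) : ℤ) + (mu u + j) + k₁)) ≤
          |d.ZR (d.T u.1) (d.T u.2) (d.L u.1) - d.ZR (d.T u.1) (d.T u.2) (d.L v.1)|}) w) := by
    unfold Ex
    simp only [Finset.mul_sum]
    exact Finset.sum_comm
  refine le_trans ?_ (le_of_eq h2.symm)
  refine Ex_mono hQ.nonneg fun w hw => ?_
  have hnn : ∀ s, 0 ≤ Set.indicator
      {u : d.Om × d.Om | (mu u, d.T u.1, d.T u.2) ∈ WS0 d j k' ∧
        0 ≤ ((8 * n + s : ℕ) : ℤ) + (mu u + j) ∧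
        (((8 * n + s : ℕ) : ℤ) + (mu u + j)).toNat ∈ J u.1}
      (fun u => Pr (cond (d.Qp j) (d.GS mu lam (8 * n + s)) (d.GS mu lam (8 * n + s) u))
        {v | (2 : ℝ) ^ (-(((8 * n + s : ℕ) : ℤ) + (mu u + j) + k₁)) ≤
          |d.ZR (d.T u.1) (d.T u.2) (d.L u.1) - d.ZR (d.T u.1) (d.T u.2) (d.L v.1)|}) w :=
    fun s => Set.indicator_apply_nonneg fun _ =>
      Pool.KAF.Pr_nonneg (rk_isLaw hp mu (8 * n + s) hw).nonneg _
  by_cases hwB : w ∈ Bg d j k' m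
  swap
  · rw [Set.indicator_of_notMem hwB]
    exact Finset.sum_nonneg fun s _ => hnn s
  rw [Set.indicator_of_mem hwB]
  unfold Ag
  refine (Finset.sum_le_sum fun s hs => ?_).trans (Finset.sum_le_sum_of_subset_of_nonneg
    (fun s hs => (mem_filter.1 hs).1) fun s _ _ => hnn s)
  obtain ⟨-, -, -, g3⟩ := mem_filter.1 hs
  obtain ⟨b1, b2⟩ := hwB
  have hta : d.ta w ≠ 0 := by
    have : (0 : ℝ) < |d.ta w| := lt_of_lt_of_le (by positivity) b2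
    exact abs_pos.1 this
  have hrow : ((8 * n + s : ℕ) : ℤ) + (mu w + j) = ((shf mu n j w + s : ℕ) : ℤ) := by
    have e1 := hL.lo w
    have e2 : ((shf mu n j w : ℕ) : ℤ) = 8 * n + mu w + j := by
      unfold shf
      omega
    push_cast
    omega
  have hmem : w ∈ {u : d.Om × d.Om | (mu u, d.T u.1, d.T u.2) ∈ WS0 d j k' ∧
        0 ≤ ((8 * n + s : ℕ) : ℤ) + (mu u + j) ∧
        (((8 * n + s : ℕ) : ℤ) + (mu u + j)).toNat ∈ J u.1} := by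
    refine ⟨⟨b2, ta_le (Qp_pos hp hw).2.2.2⟩, ?_, ?_⟩
    · rw [hrow]
      exact Int.natCast_nonneg _
    · rw [hrow, Int.toNat_natCast]
      exact g3
  rw [Set.indicator_of_mem hmem]
  refine Pool.KAF.Pr_mono (rk_isLaw hp mu (8 * n + s) hw).nonneg fun v hv hv2 => ?_
  by_contra hcon
  have hcon' : |d.ZR (d.T w.1) (d.T w.2) (d.L w.1) - d.ZR (d.T w.1) (d.T w.2) (d.L v.1)| ≤
      (2 : ℝ) ^ (-(((8 * n + s : ℕ) : ℤ) + (mu w + j) + k₁)) := (not_le.1 hcon).le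
  have h3 := Z_atomic0 d hta b2 hcon'
  have h4 : (2 : ℝ) ^ ((k' : ℤ) - k₁) * (2 : ℝ) ^ (-(((8 * n + s : ℕ) : ℤ) + mu w)) ≤
      hk mu a ρ w * Yk n a s := by
    rw [hk_Yk mu a n s ρ w]
    refine mul_le_mul_of_nonneg_right ?_ (by positivity)
    rw [hρ]
    linarith
  exact absurd (h3.trans h4) (not_le.2 hv2)

end Pool.OCS.G41
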