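import Pool.Agent.H41.OCS.Geo
import Pool.Agent.H41.L1.LAM
import Pool.Agent.H87.M5.Rwa
import Pool.Agent.H92.M5.Tools

/-!
# OCS, row GRS: the laws of the pairs, the partners and the cells
-/

set_option autoImplicit false

namespace Pool.OCS.G41

open Finset Real
open Pool.Agent.H49.Ent Pool.Agent.H32.Dense Pool.STK Pool.KAF Pool.SLO Pool.M5T

section basic

variable {Ω Ω' T : Type} [Fintype Ω] [Fintype Ω']

/-- The mean over a gluing. -/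
theorem Ex_glue {p₁ : Ω → ℝ} {p₂ : Ω' → ℝ} {Z₁ : Ω → T} {Z₂ : Ω' → T}
    (hZ : ∀ z, law p₁ Z₁ z = law p₂ Z₂ z) (f : Ω × Ω' → ℝ) :
    Ex (glue p₁ p₂ Z₁ Z₂) f = Ex p₁ (fun x => Ex (cond p₂ Z₂ (Z₁ x)) (fun y => f (x, y))) := by
  classical
  unfold Ex
  rw [Fintype.sum_prod_type]
  refine Finset.sum_congr rfl fun x _ => ?_
  rw [Finset.mul_sum]
  refine Finset.sum_congr rfl fun y _ => ?_
  unfold glue Pool.Agent.H49.Ent.cond
  simp only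
  rw [hZ]
  by_cases h : Z₁ x = Z₂ y
  · rw [if_pos h, if_pos h.symm]
    ring
  · rw [if_neg h, if_neg (Ne.symm h)]
    ring

theorem Pr_ex {p : Ω → ℝ} (E : Set Ω) [DecidablePred (· ∈ E)] :
    Pr p E = Ex p (fun ω => if ω ∈ E then (1 : ℝ) else 0) := (Ex_ind p E).symm

end basic

variable {d : Dat}

theorem Qp_isLaw (hp : IsLaw d.P) (i : ℕ) : IsLaw (d.Qp i) := by
  refine ⟨fun w => ?_, ?_⟩
  · unfold Dat.Qp dbl
    exact glue_nonneg hp.nonneg hp.nonneg w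
  · unfold Dat.Qp
    rw [(dbl_fst (b := fun ω => (d.L ω, d.Ti i ω)) hp.nonneg).sum]
    exact hp.sum_one

theorem Qp_fst (hp : IsLaw d.P) (i : ℕ) : Marg (d.Qp i) d.P (fun w => w.1) :=
  dbl_fst hp.nonneg

theorem Qp_pos (hp : IsLaw d.P) {i : ℕ} {w : d.Om × d.Om} (h : 0 < d.Qp i w) :
    0 < d.P w.1 ∧ 0 < d.P w.2 ∧ d.L w.1 = d.L w.2 ∧ d.Ti i w.1 = d.Ti i w.2 := by
  unfold Dat.Qp dbl at h
  have h1 := (glue_pos_iff hp.nonneg hp.nonneg w).1 h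
  exact ⟨h1.1, h1.2.1, (Prod.ext_iff.1 h1.2.2).1, (Prod.ext_iff.1 h1.2.2).2⟩

/-- Two samples with the same first digits of the time. -/
theorem ta_le {i : ℕ} {w : d.Om × d.Om} (h : d.Ti i w.1 = d.Ti i w.2) :
    |d.ta w| ≤ (2 : ℝ) ^ (-(i : ℤ)) := by
  unfold Dat.Ti at h
  have h1 := fl_near (x := d.th (d.T w.1)) (y := d.th (d.T w.2)) (i : ℤ) (by
    rw [zpow_natCast]
    exact h)
  unfold Dat.ta
  rw [abs_sub_comm]
  exact h1

/-- The law of the partners at the scale `i`. -/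
noncomputable def pk (d : Dat) (i : ℕ) (ω : d.Om) : d.Om → ℝ :=
  cond d.P (fun ω => (d.L ω, d.Ti i ω)) (d.L ω, d.Ti i ω)

theorem pk_isLaw (hp : IsLaw d.P) (i : ℕ) {ω : d.Om} (h : 0 < d.P ω) : IsLaw (pk d i ω) :=
  isLaw_cnd hp (fun ω => (d.L ω, d.Ti i ω)) h

theorem pk_pos (hp : IsLaw d.P) {i : ℕ} {ω ω' : d.Om} (h : 0 < pk d i ω ω') :
    0 < d.P ω' ∧ d.L ω' = d.L ω ∧ d.Ti i ω' = d.Ti i ω := by
  have h1 := (cond_pos_iff hp.nonneg _ _ ω').1 h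
  exact ⟨h1.1, (Prod.ext_iff.1 h1.2).1, (Prod.ext_iff.1 h1.2).2⟩

theorem pk_ta (hp : IsLaw d.P) {i : ℕ} {ω ω' : d.Om} (h : 0 < pk d i ω ω') :
    |d.ta (ω, ω')| ≤ (2 : ℝ) ^ (-(i : ℤ)) :=
  ta_le (w := (ω, ω')) (pk_pos hp h).2.2.symm

theorem Ex_Q3 (hp : IsLaw d.P) (j i : ℕ) (f : (d.Om × d.Om) × d.Om → ℝ) :
    Ex (d.Q3 j i) f = Ex (d.Qp j) (fun w => Ex (pk d i w.1) (fun ω => f (w, ω))) := by
  unfold Dat.Q3
  exact Ex_glue (fun z => (Qp_fst hp j).law (fun ω => (d.L ω, d.Ti i ω)) z) f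

theorem Pr_Q3 (hp : IsLaw d.P) (j i : ℕ) (E : Set ((d.Om × d.Om) × d.Om)) :
    Pr (d.Q3 j i) E = Ex (d.Qp j) (fun w => Pr (pk d i w.1) {ω | (w, ω) ∈ E}) := by
  classical
  rw [Pr_ex, Ex_Q3 hp]
  unfold Ex
  refine Finset.sum_congr rfl fun w _ => ?_
  congr 1
  beta_reduce
  rw [Pr_ex]
  rfl

theorem Q3_pos (hp : IsLaw d.P) {j i : ℕ} {u : (d.Om × d.Om) × d.Om} (h : 0 < d.Q3 j i u) :
    0 < d.Qp j u.1 ∧ 0 < d.P u.2 ∧ d.L u.1.1 = d.L u.2 ∧ d.Ti i u.1.1 = d.Ti i u.2 := by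
  have h1 := (glue_pos_iff (Qp_isLaw hp j).nonneg hp.nonneg u).1 h
  exact ⟨h1.1, h1.2.1, (Prod.ext_iff.1 h1.2.2).1, (Prod.ext_iff.1 h1.2.2).2⟩

/-- The partners of the first sample of a pair. -/
theorem Ex_pk (hp : IsLaw d.P) (j i : ℕ) (E : Set (d.Om × d.Om)) :
    Ex (d.Qp j) (fun w => Pr (pk d i w.1) {ω | (w.1, ω) ∈ E}) = Pr (d.Qp i) E := by
  have h1 := (Qp_fst hp j).ex (fun ω => Pr (pk d i ω) {ω' | (ω, ω') ∈ E})
  rw [h1]
  unfold Dat.Qp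
  rw [Pr_dbl]
  rfl

/-! ### the cells -/

/-- The law of the copies in the cell. -/
noncomputable def rk (d : Dat) (mu : d.Om × d.Om → ℤ) (lam j s : ℕ) (w : d.Om × d.Om) :
    d.Om × d.Om → ℝ := cond (d.Qp j) (d.GS mu lam s) (d.GS mu lam s w)

theorem rk_isLaw (hp : IsLaw d.P) (mu : d.Om × d.Om → ℤ) {lam j : ℕ} (s : ℕ) {w : d.Om × d.Om}
    (h : 0 < d.Qp j w) : IsLaw (rk d mu lam j s w) :=
  isLaw_cnd (Qp_isLaw hp j) (d.GS mu lam s) h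

theorem rk_pos (hp : IsLaw d.P) {mu : d.Om × d.Om → ℤ} {lam j s : ℕ} {w v : d.Om × d.Om}
    (h : 0 < rk d mu lam j s w v) : 0 < d.Qp j v ∧ d.GS mu lam s v = d.GS mu lam s w :=
  (cond_pos_iff (Qp_isLaw hp j).nonneg _ _ v).1 h

theorem GS_iff (mu : d.Om × d.Om → ℤ) (lam s : ℕ) (v w : d.Om × d.Om) :
    d.GS mu lam s v = d.GS mu lam s w ↔ d.T v.1 = d.T w.1 ∧ d.T v.2 = d.T w.2 ∧ mu v = mu w ∧
      (∀ r, ⌊(2 : ℝ) ^ ((s : ℤ) + 0) * d.pt (d.T v.1) (d.L v.1) r⌋ =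
        ⌊(2 : ℝ) ^ ((s : ℤ) + 0) * d.pt (d.T w.1) (d.L w.1) r⌋) ∧
      (∀ r, ⌊(2 : ℝ) ^ (((s - lam : ℕ) : ℤ) + 0) * d.omR (d.L v.1) r⌋ =
        ⌊(2 : ℝ) ^ (((s - lam : ℕ) : ℤ) + 0) * d.omR (d.L w.1) r⌋) ∧
      ⌊(2 : ℝ) ^ ((s : ℤ) + mu v) * d.us v⌋ = ⌊(2 : ℝ) ^ ((s : ℤ) + mu w) * d.us w⌋ := by
  unfold Dat.GS
  simp only [Prod.mk.injEq, add_zero, zpow_natCast]
  constructor
  · rintro ⟨h1, h2, h3, h4, h5, h6⟩
    exact ⟨h1, h2, h3, fun r => congrFun h4 r, fun r => congrFun h5 r, h6⟩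
  · rintro ⟨h1, h2, h3, h4, h5, h6⟩
    exact ⟨h1, h2, h3, funext h4, funext h5, h6⟩

/-- The new digits of a cell. -/
noncomputable def dgs (mu : d.Om × d.Om → ℤ) (lam s : ℕ) (v : d.Om × d.Om) :
    (Fin 2 → Fin 2) × (Fin 2 → Fin 2) × Fin 2 :=
  (fun r => par ⌊(2 : ℝ) ^ (((s + 1 : ℕ) : ℤ) + 0) * d.pt (d.T v.1) (d.L v.1) r⌋,
    fun r => par ⌊(2 : ℝ) ^ (((s + 1 - lam : ℕ) : ℤ) + 0) * d.omR (d.L v.1) r⌋,
    par ⌊(2 : ℝ) ^ (((s + 1 : ℕ) : ℤ) + mu v) * d.us v⌋)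

theorem GS_succ {mu : d.Om × d.Om → ℤ} {lam s : ℕ} {v w : d.Om × d.Om}
    (h : d.GS mu lam s v = d.GS mu lam s w) (h' : dgs mu lam s v = dgs mu lam s w) :
    d.GS mu lam (s + 1) v = d.GS mu lam (s + 1) w := by
  rw [GS_iff] at h ⊢
  obtain ⟨h1, h2, h3, h4, h5, h6⟩ := h
  unfold dgs at h'
  simp only [Prod.mk.injEq] at h'
  obtain ⟨g1, g2, g3⟩ := h'
  refine ⟨h1, h2, h3, fun r => Pool.M5.RWA.floor_succ (h4 r) (congrFun g1 r), fun r => ?_, ?_⟩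
  · by_cases hs : lam ≤ s
    · have e1 : s + 1 - lam = (s - lam) + 1 := by omega
      rw [e1]
      have g4 := congrFun g2 r
      rw [e1] at g4
      exact Pool.M5.RWA.floor_succ (h5 r) g4
    · have e1 : s + 1 - lam = s - lam := by omega
      rw [e1]
      exact h5 r
  rw [h3] at h6 g3 ⊢
  exact Pool.M5.RWA.floor_succ h6 g3

theorem GS_pred {mu : d.Om × d.Om → ℤ} {lam s : ℕ} {v w : d.Om × d.Om}
    (h : d.GS mu lam (s + 1) v = d.GS mu lam (s + 1) w) : d.GS mu lam s v = d.GS mu lam s w := by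
  rw [GS_iff] at h ⊢
  obtain ⟨h1, h2, h3, h4, h5, h6⟩ := h
  refine ⟨h1, h2, h3, fun r => Pool.M5.RWA.floor_pred (h4 r), fun r => ?_, ?_⟩
  · by_cases hs : lam ≤ s
    · have e1 : s + 1 - lam = (s - lam) + 1 := by omega
      have h7 := h5 r
      rw [e1] at h7
      exact Pool.M5.RWA.floor_pred h7
    · have e1 : s + 1 - lam = s - lam := by omega
      have h7 := h5 r
      rw [e1] at h7
      exact h7
  rw [h3] at h6 ⊢
  exact Pool.M5.RWA.floor_pred h6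

open Classical in
/-- The depths at which the cell shrinks a lot. -/
noncomputable def Bf (d : Dat) (mu : d.Om × d.Om → ℤ) (lam n j X' : ℕ) (η : ℝ) (w : d.Om × d.Om) :
    Finset ℕ :=
  (range X').filter (fun s => law (d.Qp j) (d.GS mu lam (8 * n + s + 1)) (d.GS mu lam (8 * n + s + 1) w) <
    η * law (d.Qp j) (d.GS mu lam (8 * n + s)) (d.GS mu lam (8 * n + s) w))

theorem Bf_mean (hp : IsLaw d.P) (mu : d.Om × d.Om → ℤ) (lam n j X' : ℕ) {η : ℝ} (hη : 0 ≤ η) :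
    Ex (d.Qp j) (fun w => ((Bf d mu lam n j X' η w).card : ℝ)) ≤ 32 * η * X' := by
  classical
  have h1 : ∀ w, ((Bf d mu lam n j X' η w).card : ℝ) = ∑ s ∈ range X', (if w ∈ {w |
      law (d.Qp j) (d.GS mu lam (8 * n + s + 1)) (d.GS mu lam (8 * n + s + 1) w) <
      η * law (d.Qp j) (d.GS mu lam (8 * n + s)) (d.GS mu lam (8 * n + s) w)} then (1 : ℝ) else 0) := by
    intro w
    unfold Bf
    rw [Finset.card_filter]
    push_cast
    rfl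
  simp only [h1]
  have h2 : Ex (d.Qp j) (fun w => ∑ s ∈ range X', (if w ∈ {w |
      law (d.Qp j) (d.GS mu lam (8 * n + s + 1)) (d.GS mu lam (8 * n + s + 1) w) <
      η * law (d.Qp j) (d.GS mu lam (8 * n + s)) (d.GS mu lam (8 * n + s) w)} then (1 : ℝ) else 0)) =
      ∑ s ∈ range X', Pr (d.Qp j) {w |
      law (d.Qp j) (d.GS mu lam (8 * n + s + 1)) (d.GS mu lam (8 * n + s + 1) w) <
      η * law (d.Qp j) (d.GS mu lam (8 * n + s)) (d.GS mu lam (8 * n + s) w)} := by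
    simp only [Pr_ex]
    unfold Ex
    simp only [Finset.mul_sum]
    exact Finset.sum_comm
  rw [h2]
  have h3 : ∀ s ∈ range X', Pr (d.Qp j) {w |
      law (d.Qp j) (d.GS mu lam (8 * n + s + 1)) (d.GS mu lam (8 * n + s + 1) w) <
      η * law (d.Qp j) (d.GS mu lam (8 * n + s)) (d.GS mu lam (8 * n + s) w)} ≤ 32 * η := by
    intro s _
    refine (ratio (Qp_isLaw hp j) (d.GS mu lam (8 * n + s)) (d.GS mu lam (8 * n + s + 1))
      (dgs mu lam (8 * n + s)) univ (fun _ => mem_univ _) (fun v w h => GS_pred h)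
      (fun v w h h' => GS_succ h h') η hη).trans (le_of_eq ?_)
    rw [Finset.card_univ]
    simp only [Fintype.card_prod, Fintype.card_fun, Fintype.card_fin]
    norm_num
  refine (Finset.sum_le_sum h3).trans (le_of_eq ?_)
  rw [Finset.sum_const, card_range, nsmul_eq_mul]
  ring

theorem Bf_use (hp : IsLaw d.P) {mu : d.Om × d.Om → ℤ} {lam n j X' s : ℕ} {η : ℝ}
    {w : d.Om × d.Om} (hw : 0 < d.Qp j w) (hs : s < X') (h : s ∉ Bf d mu lam n j X' η w)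
    (v : d.Om × d.Om) : η * rk d mu lam j (8 * n + (s + 1)) w v ≤ rk d mu lam j (8 * n + s) w v := by
  classical
  have hQ := Qp_isLaw hp j
  unfold rk Pool.Agent.H49.Ent.cond
  by_cases h1 : d.GS mu lam (8 * n + (s + 1)) v = d.GS mu lam (8 * n + (s + 1)) w
  · have h2 : d.GS mu lam (8 * n + s) v = d.GS mu lam (8 * n + s) w := GS_pred h1
    rw [if_pos h1, if_pos h2]
    have h3 : η * law (d.Qp j) (d.GS mu lam (8 * n + s)) (d.GS mu lam (8 * n + s) w) ≤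
        law (d.Qp j) (d.GS mu lam (8 * n + (s + 1))) (d.GS mu lam (8 * n + (s + 1)) w) := by
      by_contra hcon
      push Not at hcon
      exact h (mem_filter.2 ⟨mem_range.2 hs, hcon⟩)
    have p1 := law_pos hQ.nonneg (d.GS mu lam (8 * n + s)) hw
    have p2 := law_pos hQ.nonneg (d.GS mu lam (8 * n + (s + 1))) hw
    rw [← mul_div_assoc, div_le_div_iff₀ p2 p1]
    have := mul_le_mul_of_nonneg_left h3 (hQ.nonneg v)
    nlinarith
  · rw [if_neg h1, mul_zero]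
    split_ifs
    · exact div_nonneg (hQ.nonneg v) (law_nonneg hQ.nonneg _ _)
    · exact le_rfl

end Pool.OCS.G41
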